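import Pool.Agent.Helper99.BLD.Nlw
import Pool.Agent.Helper13.AM.Axp

/-! ALL DIMENSIONS, builder, row [NLWP]: the labels `Nlw` of a corner under extensions and events. -/

set_option autoImplicit false

namespace Pool.Agent.Helper99.BLD

open Finset Filter Topology Pool.Agent.Helper69.RK Pool.Agent.Helper31.EC Pool.Agent.Helper31.EC.Sp
open Pool.Agent.Helper31.EC.QS Pool.Agent.Helper10.BLD Pool.Agent.Helper13.AM

noncomputable section

variable {S T : Sp} {d N r : ℕ} {c : CD S d N r} {w : Fin N → ℝ} {z : Fin N}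

theorem nlw_iff : Nlw c w z ↔ ∀ s, 0 ≤ s → w z * s < 1 → NlwA c.O (fun i => c.xi i ⊔ dg (c.q 0) s) (c.K s) := Iff.rfl

theorem nlw_pull (h : Nlw c w z) (p : Pj T S) : Nlw (c.pull p) w z := by
  rw [nlw_iff] at h ⊢
  intro s h0 h1
  have h2 := (h s h0 h1).pull p
  have e1 : (fun i => (c.pull p).xi i ⊔ dg ((c.pull p).q 0) s) = fun i => p.map (c.xi i ⊔ dg (c.q 0) s) := by
    funext i
    show (c.pull p).xi i ⊔ dg (p.qs (c.q 0)) s = _
    rw [CD.pull_xi, p.qs_dg, p.map_sup]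
  rw [CD.pull_O, CD.pull_K, e1]
  exact h2

theorem nlw_rest (hb : ∀ i, Bdd (c.bV i)) (hK : ∀ s, Bdd (c.VK s)) (h : Nlw c w z) (E : ∀ k, (S.F k).Ω → Prop)
    (hE : 0 < ul (S.pr E)) : Nlw (c.rest E hE) w z := by
  rw [nlw_iff] at h ⊢
  intro s h0 h1
  have h2 := (h s h0 h1).rest E hE
  have e1 : (fun i => (c.rest E hE).xi i ⊔ dg ((c.rest E hE).q 0) s) =
      fun i => restL E hE (c.xi i ⊔ dg (c.q 0) s) := by
    funext i
    show (c.rest E hE).xi i ⊔ dg (QS.rest E hE (c.q 0)) s = _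
    rw [CD.rest_xi E hE hb, QS.rest_dg, restL_sup]
  rw [CD.rest_O, CD.rest_K E hE (hK s), e1]
  exact h2

/-- ROW [NLWP] -/
theorem st_nlwp : ST_NLWP := fun _ _ _ _ _ _ _ _ hc =>
  ⟨fun _ p => nlw_pull hc.nlw p, fun E hE => nlw_rest hc.ln.bdd hc.bx.bdd hc.nlw E hE⟩

/-- ROW [AXP] -/
theorem st_axp : ST_AXP := axp_of st_nlwp

end

end Pool.Agent.Helper99.BLD
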