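import Pool.Agent.Helper91.BOX.Num
import Pool.Agent.Helper33.CM.Tn
import Pool.Agent.Helper10.BLD.U
import Pool.Agent.Helper13.AM.Cl

/-! THE BUILDER, row [VWT]: the totals of a corner from its view over a member of the homogeneous class. The boxes of the
corner are only labels of the windows; they are maximal by the upper bounds from the frames. -/

set_option autoImplicit false

namespace Pool.Agent.Helper99.BLD

open Finset Filter Topology Pool.Agent.Helper69.RK Pool.Agent.Helper31.EC Pool.Agent.Helper31.EC.Sp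
open Pool.Agent.Helper31.EC.QS Pool.Agent.Helper40.EL Pool.Agent.Helper84.MT
open Pool.Agent.Helper36.AM Pool.Agent.Helper13.AM Pool.Agent.Helper10.BLD Pool.Agent.Helper91.BOX
open Pool.Agent.Helper33.LIT Pool.Agent.Helper33.CM
open Pool.Agent.Helper57.TA (rcst)

noncomputable section

/-! ### coordinates -/

section

variable {M d N : ℕ} {w : Fin (M + 1) → ℝ}

theorem spl_hw (P : Spl w d N) : P.w P.z = w (Fin.last M) := by
  unfold Spl.w
  rw [P.hz]

theorem spl_bij (P : Spl w d N) : Function.Bijective (Sum.elim P.bI P.vI) := by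
  constructor
  · rintro (i | i) (j | j) h
    · exact congrArg Sum.inl (P.sb.injective h)
    · exact absurd h (P.bv i j).ne
    · exact absurd h (P.bv j i).ne'
    · exact congrArg Sum.inr (P.sv.injective h)
  · intro a
    rcases P.cov a with ⟨i, h⟩ | ⟨j, h⟩
    · exact ⟨Sum.inl i, h⟩
    · exact ⟨Sum.inr j, h⟩

theorem sum_spl (P : Spl w d N) (f : Fin (M + 1) → ℝ) :
    ∑ j : Fin M, f j.castSucc = ∑ i, f (P.bI i) + ∑ j ∈ univ.erase P.z, f (P.vI j) := by
  have h1 : ∑ x : Fin (d + 1) ⊕ Fin N, f (Sum.elim P.bI P.vI x) = ∑ a, f a :=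
    Function.Bijective.sum_comp (spl_bij P) f
  rw [Fintype.sum_sum_type] at h1
  have h3 := Fin.sum_univ_castSucc f
  have h2 : ∑ j ∈ univ.erase P.z, f (P.vI j) + f (P.vI P.z) = ∑ j, f (P.vI j) :=
    Finset.sum_erase_add univ (fun j => f (P.vI j)) (Finset.mem_univ P.z)
  rw [P.hz] at h2
  simp only [Sum.elim_inl, Sum.elim_inr] at h1
  linarith

theorem spl_b_ne (P : Spl w d N) (i : Fin (d + 1)) : P.bI i ≠ Fin.last M := by
  rw [← P.hz]
  exact (P.bv i P.z).ne

theorem spl_v_ne (P : Spl w d N) {j : Fin N} (hj : j ≠ P.z) : P.vI j ≠ Fin.last M := by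
  rw [← P.hz]
  exact fun h => hj (P.sv.injective h)

variable {S : Sp}

theorem ozr_cor (Q : S.VV (M + 1)) {z i : Fin (M + 1)} (hi : i ≠ z) : TR.cor (ozr Q z) i = TR.cor Q i := by
  apply Subtype.ext
  funext k ω
  show (ozr Q z).v k ω i = Q.v k ω i
  rw [ozr_v, if_neg hi]

theorem ozr_cor_self (Q : S.VV (M + 1)) (z : Fin (M + 1)) : TR.cor (ozr Q z) z = 0 := by
  apply Subtype.ext
  funext k ω
  show (ozr Q z).v k ω z = 0
  rw [ozr_v, if_pos rfl]

theorem dg_qc (Q : S.VV (M + 1)) (j : Fin (M + 1)) {r : ℝ} (hr : r ≤ 1) : dg (qc Q j) r = TR.dg (TR.cor Q j) r :=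
  dg_mk _ hr

theorem vd_lin (A : Matrix (Fin (d + 1)) (Fin (d + 1)) ℝ) (q : Fin (d + 1) → QS S) {r : ℝ} (hr : r ≤ 1) :
    vd (fun i => ∑ j, rcst S (A i j) * q j) r ≤ vd q r := by
  rw [vd_le]
  intro i
  rw [← mem_Kn (hr := hr)]
  refine Subring.sum_mem _ fun j _ => Subring.mul_mem _ ?_ (mem_Kn.mpr (dg_le_vd q r j))
  rw [mem_Kn, Pool.Agent.Helper57.TA.dg_rcst]
  exact _root_.bot_le

theorem vd_lin_eq {A : Matrix (Fin (d + 1)) (Fin (d + 1)) ℝ} (hA : IsUnit A.det) (q : Fin (d + 1) → QS S) {r : ℝ}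
    (hr : r ≤ 1) : vd (fun i => ∑ j, rcst S (A i j) * q j) r = vd q r := by
  apply le_antisymm (vd_lin A q hr)
  have h1 : q = fun i => ∑ j, rcst S (A⁻¹ i j) * ∑ l, rcst S (A j l) * q l := by
    funext i
    have h2 : ∀ j, rcst S (A⁻¹ i j) * ∑ l, rcst S (A j l) * q l = ∑ l, rcst S (A⁻¹ i j * A j l) * q l := fun j => by
      rw [Finset.mul_sum]
      exact Finset.sum_congr rfl fun l _ => by rw [map_mul]; ring
    simp only [h2]
    rw [Finset.sum_comm]
    have h3 : ∀ l, ∑ j, rcst S (A⁻¹ i j * A j l) * q l = rcst S ((A⁻¹ * A) i l) * q l := fun l => by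
      rw [← Finset.sum_mul, ← map_sum]
      rfl
    simp only [h3]
    rw [Matrix.nonsing_inv_mul A hA, Finset.sum_eq_single i]
    · rw [Matrix.one_apply_eq, map_one, one_mul]
    · intro j _ hj
      rw [Matrix.one_apply_ne hj.symm, map_zero, zero_mul]
    · intro h
      exact absurd (Finset.mem_univ i) h
  calc vd q r = vd (fun i => ∑ j, rcst S (A⁻¹ i j) * ∑ l, rcst S (A j l) * q l) r := congrArg (fun f => vd f r) h1
    _ ≤ vd (fun i => ∑ j, rcst S (A i j) * q j) r := vd_lin A⁻¹ _ hr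

/-- the cells of the point in the coordinates of a splitting -/
theorem cel2L_spl (P : Spl w d N) {A : Matrix (Fin (d + 1)) (Fin (d + 1)) ℝ} (hA : IsUnit A.det)
    (Q : S.VV (M + 1)) {a b : ℝ} (hb : b ≤ a) (ha : a ≤ 1) : cel2L Q (Fin.last M) a b =
      vd (qA P A Q) a ⊔ vd (fun j : {j : Fin N // j ≠ P.z} => Rv P Q j.1) a ⊔ dg (Rv P Q P.z) b := by
  have hq : vd (qA P A Q) a = vd (fun i => qc Q (P.bI i)) a :=
    vd_lin_eq hA (fun i => qc Q (P.bI i)) ha
  have hz0 : TR.dg (0 : TR S) a ≤ ⊥ := by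
    rw [← dg_mk _ ha, map_zero]
    have h1 := Pool.Agent.Helper57.TA.dg_rcst (S := S) 0 a
    rw [map_zero] at h1
    exact h1.le
  rw [hq]
  apply le_antisymm
  · apply sup_le
    · rw [TR.vv_dg_le_iff]
      intro i
      rw [← dg_qc Q i (hb.trans ha)]
      rcases P.cov i with ⟨j, rfl⟩ | ⟨j, rfl⟩
      · exact (((dg_mono _ hb).trans (dg_le_vd (fun i => qc Q (P.bI i)) a j)).trans le_sup_left).trans le_sup_left
      · by_cases hj : j = P.z
        · subst hj
          exact le_sup_right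
        · exact (((dg_mono _ hb).trans (dg_le_vd (fun j : {j : Fin N // j ≠ P.z} => Rv P Q j.1) a ⟨j, hj⟩)).trans
            le_sup_right).trans le_sup_left
    · rw [TR.vv_dg_le_iff]
      intro i
      by_cases hi : i = Fin.last M
      · rw [hi, ozr_cor_self]
        exact hz0.trans bot_le
      · rw [ozr_cor Q hi, ← dg_qc Q i ha]
        rcases P.cov i with ⟨j, rfl⟩ | ⟨j, rfl⟩
        · exact ((dg_le_vd (fun i => qc Q (P.bI i)) a j).trans le_sup_left).trans le_sup_left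
        · have hj : j ≠ P.z := by
            rintro rfl
            exact hi P.hz
          exact ((dg_le_vd (fun j : {j : Fin N // j ≠ P.z} => Rv P Q j.1) a ⟨j, hj⟩).trans
            le_sup_right).trans le_sup_left
  · refine sup_le (sup_le ?_ ?_) ?_
    · rw [vd_le]
      intro i
      rw [dg_qc Q _ ha, ← ozr_cor Q (spl_b_ne P i)]
      exact (TR.cor_dg_le _ _ _).trans le_sup_right
    · rw [vd_le]
      rintro ⟨j, hj⟩
      show dg (qc Q (P.vI j)) a ≤ _
      rw [dg_qc Q _ ha, ← ozr_cor Q (spl_v_ne P hj)]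
      exact (TR.cor_dg_le _ _ _).trans le_sup_right
    · show dg (qc Q (P.vI P.z)) b ≤ _
      rw [dg_qc Q _ (hb.trans ha)]
      exact (TR.cor_dg_le _ _ _).trans le_sup_left

end

/-! ### labels whose number is at most the number of the box are maximal -/

section

variable {M g r : ℕ} {w : Fin (M + 1) → ℝ} {ρ : ℝ} {Cl : MCl (M + 1)}
  {TT : ∀ S : Sp, MSys S (M + 1) (lin g) (Fin r) → Prop} {S : Sp} {t : MSys S (M + 1) (lin g) (Fin r)} {c : ℝ}

theorem num_of_le (hT : Hom M Cl g r w ρ TT) (ht : TT S t) (h0 : 0 ≤ c) (h1 : w (Fin.last M) * c < 1) {α : ℕ → Type}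
    {V : ∀ k, (S.F k).Ω → α k} (hV : Bdd V) (hD : t.DMc c (Lab.ofZ fun k => Setoid.ker (V k))) {a0 : ℝ}
    (ha0 : w (Fin.last M) * c ≤ a0) (ha1 : a0 ≤ 1) (hle : h (cel2L t.Q (Fin.last M) a0 (w (Fin.last M) * c)) (io V) ≤
      ∑ j : Fin M, (a0 - w j.castSucc * c)) {a b : ℝ} (hb : w (Fin.last M) * c ≤ b) (hba : b ≤ a) (ha : a ≤ 1) :
    h (cel2L t.Q (Fin.last M) a b) (io V) =
      ∑ j : Fin M, (a - w j.castSucc * c) + (1 - ρ) * (b - w (Fin.last M) * c) := by
  obtain ⟨α', V', f, hV', hK', -⟩ := exists_box hT ht h0 h1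
  have hD' := (Lab.ofZ_DMf fun k => Setoid.ker (V k)).mp hD
  have h2 : io V ≤ io V' := by
    have h3 : PLe (rpI hV.toInf) (rpI hV'.toInf) := kap_lab hK' (hD' none) fun i => hD' (some i)
    rw [PLe_rpI] at h3
    rwa [io_eq hV, io_eq hV']
  obtain ⟨X, hX⟩ : ∃ X, X = cel2L t.Q (Fin.last M) a0 (w (Fin.last M) * c) := ⟨_, rfl⟩
  have h3 : io V' ≤ X := by
    rw [hX]
    refine (box_le_cell hT ht hV' hK' h0 h1 le_rfl h1.le).trans ?_
    exact le_sup_left
  have h4 := num_box hT ht hV' hK' h0 h1 le_rfl ha0 ha1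
  rw [sub_self, mul_zero, add_zero, ← hX] at h4
  rw [← hX] at hle
  have h5 : io V' ≤ io V := by
    rw [← h_le_zero_iff]
    have e1 : h X (io V) = H (X ⊔ io V) - H (io V) := rfl
    have e2 : h X (io V') = H (X ⊔ io V') - H (io V') := rfl
    have e3 : h (io V') (io V) = H (io V' ⊔ io V) - H (io V) := rfl
    rw [sup_eq_left.mpr (h2.trans h3)] at e1
    rw [sup_eq_left.mpr h3] at e2
    rw [sup_eq_left.mpr h2] at e3
    linarith
  rw [le_antisymm h2 h5]
  exact num_box hT ht hV' hK' h0 h1 hb hba ha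

end

/-! ### the totals -/

theorem st_vwt (M : ℕ) : ST_VWT M := by
  intro Cl g r w ρ TT hT d N r' P T c hc s b a hs hb hba ha
  obtain ⟨E, hE, S, t, e, he, he1, p, κ, V, A, hTy, ht, hwe, hA, hq, hR, hVK, hDM, -⟩ := hc.vw
  have hwz := spl_hw P
  have w1 := hc.ax0.w1
  have hWs : P.w P.z * s ≤ 1 := hb.trans (hba.trans ha)
  have hs1 : s ≤ 1 := by
    have := w1 P.z
    nlinarith
  have hWs0 : 0 ≤ P.w P.z * s := mul_nonneg (zero_le_one.trans (w1 P.z).le) hs
  have hcK : w (Fin.last M) * (e * s) = e * (P.w P.z * s) := by rw [hwz]; ring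
  -- the box
  have hB1 : Bdd (S := T.rest E) (c.VK s) := rest_VB E (hc.ax0.bx.bdd s)
  have hB2 : Bdd (S := T.rest E) (fun k ω => V s k (p.π k ω)) :=
    Bdd.of_fun hB1 (Eventually.of_forall fun k ω ω' h h' hZ => (hVK s hs hWs k ω ω' h h' hZ).mp)
  have hB3 : Bdd (S := S.chg S.tr e he) (V s) := (p.bdd_iff (V s)).mp hB2
  have hB4 : Bdd (S := S) (V s) := un_VB e he hB3
  have hK : restL E hE (c.K s) = p.map (chgL S.tr e he (io (V s))) := by
    rw [chgL_io _ _ _ hB4, p.map_io]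
    unfold CD.K
    rw [restL_io E hE (hc.ax0.bx.bdd s)]
    apply le_antisymm
    · exact io_le_of_fun hB2 (Eventually.of_forall fun k ω ω' h h' hZ => (hVK s hs hWs k ω ω' h h' hZ).mpr)
    · exact io_le_of_fun hB1 (Eventually.of_forall fun k ω ω' h h' hZ => (hVK s hs hWs k ω ω' h h' hZ).mp)
  -- the cells
  have key : ∀ a' b' : ℝ, b' ≤ a' → a' ≤ 1 → h (vd c.q a' ⊔ vd (c.M P.z) a' ⊔ dg (c.R P.z) b') (c.K s) =
      h (cel2L t.Q (Fin.last M) (e * a') (e * b')) (io (V s)) / e := by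
    intro a' b' hb' ha'
    rw [cel2L_spl P hA t.Q (mul_le_mul_of_nonneg_left hb' he.le) (mul_le_one_of he he1 ha')]
    rw [← h_restL_typ E hTy, restL_sup, restL_sup, ← QS.rest_vd, ← QS.rest_vd, ← QS.rest_dg, hK]
    have e1 : vd (fun i => QS.rest E (ul_pr_typ_pos E hTy) (c.q i)) a' =
        p.map (chgL S.tr e he (vd (qA P A t.Q) (e * a'))) := by
      rw [← cQ_vd S.tr e he he1 _ ha', ← p.qs_vd]
      congr 1
      funext i
      exact hq i
    have e2 : vd (fun j => QS.rest E (ul_pr_typ_pos E hTy) (c.M P.z j)) a' =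
        p.map (chgL S.tr e he (vd (fun j : {j : Fin N // j ≠ P.z} => Rv P t.Q j.1) (e * a'))) := by
      rw [← cQ_vd S.tr e he he1 _ ha', ← p.qs_vd]
      congr 1
      funext j
      exact hR j.1
    have e3 : dg (QS.rest E (ul_pr_typ_pos E hTy) (c.R P.z)) b' =
        p.map (chgL S.tr e he (dg (Rv P t.Q P.z) (e * b'))) := by
      rw [← cQ_dg S.tr e he he1 _ (hb'.trans ha'), ← p.qs_dg]
      congr 1
      exact hR P.z
    rw [e1, e2, e3, ← p.map_sup, ← p.map_sup, p.h_map, ← chgL_sup, ← chgL_sup]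
    exact Pool.Agent.Helper38.NS.dL_h e he _ _
  -- the number of the box from the frame
  have hnum : h (vd c.q 1 ⊔ vd (c.M P.z) 1 ⊔ dg (c.R P.z) (P.w P.z * s)) (c.K s) ≤
      ((d : ℝ) + 1) * (1 - s) + (((N : ℝ) - 1) * 1 - (∑ j ∈ univ.erase P.z, P.w j) * s) := by
    have a1 := h_q_le hc.ax0.bx hs hWs hs1 le_rfl
    have a2 := h_M_le hc.ax0.bx w1 hc.ax0.wz hs hWs le_rfl
    have a4 : h (vd c.q 1 ⊔ vd (c.M P.z) 1 ⊔ dg (c.R P.z) (P.w P.z * s)) (c.K s) =
        h (vd c.q 1 ⊔ vd (c.M P.z) 1) (c.K s) := by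
      rw [h_chain]
      have b1 : h (dg (c.R P.z) (P.w P.z * s)) (vd c.q 1 ⊔ vd (c.M P.z) 1 ⊔ c.K s) = 0 := by
        apply h_zero
        refine (z_thin hc.ax0.bx w1 hc.ax0.wz hs hWs).trans ?_
        refine sup_le le_sup_right (sup_le ?_ ?_)
        · exact ((vd_mono _ hWs).trans le_sup_right).trans le_sup_left
        · exact le_sup_left.trans le_sup_left
      rw [b1, add_zero]
    have a5 : h (vd c.q 1 ⊔ vd (c.M P.z) 1) (c.K s) = h c.P (c.K s) + h (vd (c.M P.z) 1) (c.K s ⊔ c.P) := by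
      have b1 := h_chain c.P (vd (c.M P.z) 1) (c.K s)
      rw [sup_comm c.P (c.K s)] at b1
      exact b1
    have e0 : c.P = vd c.q 1 := rfl
    rw [← e0] at a1
    rw [a4, a5]
    linarith
  have hle : h (cel2L t.Q (Fin.last M) e (w (Fin.last M) * (e * s))) (io (V s)) ≤
      ∑ j : Fin M, (e - w j.castSucc * (e * s)) := by
    have a1 := key 1 (P.w P.z * s) hWs le_rfl
    rw [a1, mul_one, div_le_iff₀ he] at hnum
    rw [hcK]
    refine hnum.trans (le_of_eq ?_)
    rw [sum_spl P fun j => e - w j * (e * s), ← sum_sub' (w := P.w) (z := P.z) 1 s]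
    have e1 : ∑ i, (e - w (P.bI i) * (e * s)) = ((d : ℝ) + 1) * (e * (1 - s)) := by
      simp only [P.wb, one_mul, Finset.sum_const, Finset.card_univ, Fintype.card_fin, nsmul_eq_mul]
      push_cast
      ring
    have e2 : ∑ j ∈ univ.erase P.z, (e - w (P.vI j) * (e * s)) = e * ∑ j ∈ univ.erase P.z, (1 - P.w j * s) := by
      rw [Finset.mul_sum]
      exact Finset.sum_congr rfl fun j _ => by unfold Spl.w; ring
    rw [e1, e2]
    ring
  -- the total
  have hlt : w (Fin.last M) * (e * s) < 1 := by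
    rw [hcK]
    have h2 : e * (P.w P.z * s) = (P.w P.z * e) * s := by ring
    rw [h2]
    have h3 : 0 ≤ P.w P.z * e := mul_nonneg (zero_le_one.trans (w1 P.z).le) he.le
    calc (P.w P.z * e) * s ≤ (P.w P.z * e) * 1 := mul_le_mul_of_nonneg_left hs1 h3
      _ < 1 := by rw [mul_one]; exact hwe
  have hWe : w (Fin.last M) * (e * s) ≤ e := by
    rw [hcK]
    calc e * (P.w P.z * s) ≤ e * 1 := mul_le_mul_of_nonneg_left hWs he.le
      _ = e := mul_one e
  have h6 := num_of_le hT ht (mul_nonneg he.le hs) hlt hB4 (hDM s hs hWs) hWe he1 hle (a := e * a) (b := e * b)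
    (by rw [hcK]; exact mul_le_mul_of_nonneg_left hb he.le) (mul_le_mul_of_nonneg_left hba he.le)
    (mul_le_one_of he he1 ha)
  rw [key a b hba ha, h6, sum_spl P fun j => e * a - w j * (e * s), hcK]
  have e1 : ∑ i, (e * a - w (P.bI i) * (e * s)) = e * (((d : ℝ) + 1) * (a - s)) := by
    simp only [P.wb, one_mul, Finset.sum_const, Finset.card_univ, Fintype.card_fin, nsmul_eq_mul]
    push_cast
    ring
  have e2 : ∑ j ∈ univ.erase P.z, (e * a - w (P.vI j) * (e * s)) = e * ∑ j ∈ univ.erase P.z, (a - P.w j * s) := by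
    rw [Finset.mul_sum]
    exact Finset.sum_congr rfl fun j _ => by unfold Spl.w; ring
  rw [e1, e2]
  field_simp

end

end Pool.Agent.Helper99.BLD
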