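import Pool.Agent.Helper37.DK2.Ncq
import Pool.Agent.Helper37.DK2.Nou
import Pool.Agent.Helper10.BLD.St
import Pool.Agent.Helper31.EC.Real

/-! (R1) of the builder (top coefficients) gives (R1) for the tangents in the coordinates of weight one. -/

set_option autoImplicit false

namespace Pool.Agent.Helper99.BLD

open Finset Filter Topology Matrix Pool.Agent.Helper69.RK Pool.Agent.Helper31.EC Pool.Agent.Helper31.EC.Sp
open Pool.Agent.Helper40.EL Pool.Agent.Helper89.LX Pool.Agent.Helper3.LF Pool.Agent.Helper84.MT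
open Pool.Agent.Helper49.MD Pool.Agent.Helper36.AM Pool.Agent.Helper37.DK2

noncomputable section

variable {S : Sp} {M g r : ℕ} {w : Fin (M + 1) → ℝ}

/-- informations of two elements are limits (helper90) -/
theorem tendsto_I2 (A B : S.Inf) : Tendsto (fun k => I (fc (A.1 k)) (fc (B.1 k)) (⊥ : FL (S.F k)) / (S.F k).n) UF
    (𝓝 (I (cl A) (cl B) ⊥)) := by
  have h1 : I (cl A) (cl B) ⊥ = h (cl A) ⊥ - h (cl A) (cl B) := by rw [I_eq, sup_bot_eq]
  have e1 : (⊥ : S.L) = cl (⟨S.tr, S.VB_tr⟩ : S.Inf) := by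
    rw [← cl_bot]
    rfl
  have e2 : h (cl A) ⊥ = ul (S.rt A.1 S.tr) := by
    rw [e1, h_cl]
  have e3 : h (cl A) (cl B) = ul (S.rt A.1 B.1) := h_cl A B
  rw [h1, e2, e3]
  refine ((ul_tendsto (UB_rt A _)).sub (ul_tendsto (UB_rt A _))).congr fun k => ?_
  rw [I_eq, sup_bot_eq, sub_div]
  have e4 : (⊥ : FL (S.F k)) = fc (⊤ : Setoid (S.F k).Ω) := rfl
  rw [e4, h_fc, h_fc]
  rfl

/-- ADAPTER: (R1) for the tangents in the coordinates of weight one -/
theorem r1_tan {s : MSys S (M + 1) (lin g) (Fin r)}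
    (hs : ∀ i, ∃ G : ∀ k, (S.F k).Ω → Fin (M + 1) → MvPolynomial (Fin (s.lf i).e) ℝ,
      (∀ᶠ k in UF, ∀ ω, (S.F k).μ ω ≠ 0 → ∀ y j, (s.lf i).F k ω y j = MvPolynomial.eval y (G k ω j)) ∧
        ∀ k ω j, ((G k ω j).totalDegree : ℝ) ≤ w j) (h1 : Pool.Agent.Helper10.BLD.R1 w s) : R1 (J1 w) s := by
  classical
  obtain ⟨K, hK, hb⟩ := exists_tan_bd s
  let Ix : Type := (Σ i, Fin (s.lf i).e) × (J1 w)
  have e : Fin (Fintype.card Ix) ≃ Ix := (Fintype.equivFin Ix).symm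
  set y : S.VV (Fintype.card Ix) := ⟨fun k ω x => mtan (ob s k) ω (e x).1 (e x).2.1, K, hK, by
    filter_upwards [hb] with k hk ω hω x
    exact hk ω hω _ _⟩ with hy
  have hw : ∀ j : J1 w, w j.1 = 1 := fun j => by
    have := j.2
    unfold J1 at this
    exact (Finset.mem_filter.mp this).2
  have htop : ∀ x, Pool.Agent.Helper10.BLD.IsTop w s (e x).1.1 (TR.cor y x) := by
    intro x
    obtain ⟨⟨⟨i, a⟩, j⟩, hx⟩ : ∃ z, z = e x := ⟨_, rfl⟩
    rw [← hx]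
    obtain ⟨G, hG, hd⟩ := hs i
    have hj := hw j
    refine ⟨j.1, Finsupp.single a 1, fun k ω => G k ω j.1, ?_, fun k ω => hd k ω j.1, ?_, ?_⟩
    · rw [hj, Finsupp.degree_single, Nat.cast_one]
    · filter_upwards [hG] with k hk ω hω y
      exact hk ω hω y j.1
    · filter_upwards [hG] with k hk ω hω
      have h2 : (G k ω j.1).totalDegree ≤ 1 := by
        have := hd k ω j.1
        rw [hj] at this
        exact_mod_cast this
      have h3 : ∀ y y' : Fin (s.lf i).e → ℝ, (s.lf i).F k ω y j.1 - (s.lf i).F k ω y' j.1 =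
          ∑ a, (y a - y' a) * (G k ω j.1).coeff (Finsupp.single a 1) := by
        intro y y'
        rw [hk ω hω y j.1, hk ω hω y' j.1]
        exact eval_sub_of_deg _ h2 y y'
      have h4 : mtan (ob s k) ω ⟨i, a⟩ j.1 = (G k ω j.1).coeff (Finsupp.single a 1) :=
        deriv_of_aff (fun y => (s.lf i).F k ω y j.1) _ h3 _ a
      show mtan (ob s k) ω (e x).1 (e x).2.1 = _
      rw [← hx]
      exact h4
  have h2 : I (y.dg 1) (s.Q.dg 1) ⊥ = 0 := h1 _ (TR.cor y) (fun x => (e x).1.1) htop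
  have e1 : y.dg 1 = cl (y.bdd 1).toInf := io_eq (y.bdd 1)
  have e2 : s.Q.dg 1 = cl (s.Q.bdd 1).toInf := io_eq (s.Q.bdd 1)
  have t := tendsto_I2 (y.bdd 1).toInf (s.Q.bdd 1).toInf
  rw [← e1, ← e2, h2] at t
  intro δ hδ
  filter_upwards [t.eventually (gt_mem_nhds hδ)] with k hk
  rw [div_lt_iff₀ (S.F k).pos] at hk
  show I (fc (tcell (S.F k) (ob s k) (J1 w)) : FL (S.F k)) (fc (cQ1 (S.F k) (ob s k))) ⊥ ≤ δ * (S.F k).n
  refine le_trans (I_mono_left (fc_le ?_)) hk.le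
  intro ω ω' _ _ _ hc
  have h3 : y.cellv 1 k ω = y.cellv 1 k ω' := hc.1
  show (fun (a : Σ i, Fin (s.lf i).e) (j : J1 w) => ⌊mtan (ob s k : FMs (S.F k).Ω (M + 1) (Fin r)) ω a j / dlF (S.F k) 1⌋) =
    fun (a : Σ i, Fin (s.lf i).e) (j : J1 w) => ⌊mtan (ob s k : FMs (S.F k).Ω (M + 1) (Fin r)) ω' a j / dlF (S.F k) 1⌋
  funext a j
  have h4 := congrFun h3 (e.symm (a, j))
  have h5 : ∀ ω, y.v k ω (e.symm (a, j)) = mtan (ob s k) ω a j := by
    intro ω
    show mtan (ob s k) ω (e (e.symm (a, j))).1 (e (e.symm (a, j))).2.1 = _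
    rw [e.apply_symm_apply]
  have h6 : ⌊y.v k ω (e.symm (a, j)) / dlF (S.F k) 1⌋ = ⌊y.v k ω' (e.symm (a, j)) / dlF (S.F k) 1⌋ := h4
  rw [h5, h5] at h6
  exact h6

end

end Pool.Agent.Helper99.BLD
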