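import Pool.Agent.Helper99.BLD.Nox
import Pool.Agent.Helper99.BLD.Vwt
import Pool.Agent.Helper97.GR.Lf
import Pool.Agent.Helper58.GR.Low
import Pool.Agent.Helper68.VW.Vwp
import Pool.Agent.Helper10.BLD.St1
import Pool.Agent.Helper95.RIG.Rs
import Pool.Agent.Helper99.BLD.R1c

/-! THE BUILDER, rows [ADM] and [AD1]: no exact vertical structure has an almost unit direction. -/

set_option autoImplicit false

namespace Pool.Agent.Helper99.BLD

open Finset Filter Topology Matrix Pool.Agent.Helper69.RK Pool.Agent.Helper31.EC Pool.Agent.Helper31.EC.Sp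
open Pool.Agent.Helper31.EC.QS Pool.Agent.Helper40.EL Pool.Agent.Helper84.MT
open Pool.Agent.Helper36.AM Pool.Agent.Helper13.AM Pool.Agent.Helper10.BLD
open Pool.Agent.Helper57.TA (rcst)
open Pool.Agent.Helper37.DK2 (DKU ltan J1)
open Pool.Agent.Helper95.RIG (PLeaf rest_PK eval_hom)

noncomputable section

variable {S T : Sp} {M d N g r r' : ℕ} {w : Fin (M + 1) → ℝ} {ρ : ℝ} {Cl : MCl (M + 1)}
  {TT : ∀ S : Sp, MSys S (M + 1) (lin g) (Fin r) → Prop}

theorem nd1_spl (P : Spl w d N) : nd1 w = d + 1 := by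
  classical
  have h1 : (univ.filter fun j => w j = 1) = univ.image P.bI := by
    ext a
    rw [Finset.mem_filter, Finset.mem_image]
    constructor
    · rintro ⟨_, ha⟩
      rcases P.cov a with ⟨i, hi⟩ | ⟨l, hl⟩
      · exact ⟨i, Finset.mem_univ _, hi⟩
      · have h2 := P.wv l
        rw [hl, ha] at h2
        exact absurd h2 (lt_irrefl _)
    · rintro ⟨i, _, rfl⟩
      exact ⟨Finset.mem_univ _, P.wb i⟩
  have h2 : nd1 w = (univ.filter fun j => w j = 1).card := by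
    unfold nd1
    refine congrArg Finset.card (Finset.ext fun i => ?_)
    simp only [Finset.mem_filter]
  rw [h2, h1, Finset.card_image_of_injective _ P.sb.injective, Finset.card_univ, Fintype.card_fin]

/-- the base coordinates of the member are known to the base point of the corner -/
theorem view_base (P : Spl w d N) {A : Matrix (Fin (d + 1)) (Fin (d + 1)) ℝ} (hA : IsUnit A.det) (Q : S.VV (M + 1))
    {e : ℝ} (he : 0 < e) (h1 : e ≤ 1) (p : Pj T (S.chg S.tr e he)) (i : Fin (d + 1)) :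
    dg (qc (p.vv (Q.chg S.tr e he)) (P.bI i)) 1 ≤ vd (fun i => p.qs (cQ S.tr e he h1 (qA P A Q i))) 1 := by
  have e1 : (fun i => p.qs (cQ S.tr e he h1 (qA P A Q i))) =
      fun i => ∑ j, rcst T (A i j) * qc (p.vv (Q.chg S.tr e he)) (P.bI j) := by
    funext i
    unfold qA
    rw [map_sum, map_sum]
    refine Finset.sum_congr rfl fun j _ => ?_
    rw [map_mul, map_mul]
    rfl
  rw [e1, vd_lin_eq hA (fun i => qc (p.vv (Q.chg S.tr e he)) (P.bI i)) le_rfl]
  exact dg_le_vd (fun i => qc (p.vv (Q.chg S.tr e he)) (P.bI i)) 1 i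

/-- NO ALMOST UNIT DIRECTION for one corner with a view; the number `θ` depends only on the class and on the degree -/
theorem adm_core (hT : Hom M Cl g r w ρ TT) {g' : ℕ} (hg' : 1 ≤ g') {θ : ℝ} (hθ1 : θ ≤ 1)
    (hN : ∀ (S : Sp) (s : MSys S (M + 1) (lin g) (Fin r)), TT S s → ∀ (T : Sp) (p : Pj T S)
        (X : Leaf T (p.vv s.Q) (lin g')) (A : ∀ k, (T.F k).Ω → Prop), 0 < ul (T.pr A) →
          (∀ᶠ k in UF, ∀ ω, (T.F k).μ ω ≠ 0 → A k ω → ∀ a, ∀ j ∈ J1 w, ltan X k ω a j = 0) →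
            ¬ ∀ᶠ k in UF, ∀ ω, (T.F k).μ ω ≠ 0 → A k ω → ∃ a j, T.dl θ k ≤ |ltan X k ω a j|)
    {P : Spl w d N} {c : CD T d N r'} (hv : Vw P TT T c) {V : T.L} (hV : c.P ≤ V) {n : ℕ} {Y : Fin n → QS T}
    {Φ : Fin N → MvPolynomial (Fin n) (QS T)} (hY : Rl Y V) (hΦ : ∀ j, Φ j ∈ PK V)
    (hR : ∀ j, c.R j = MvPolynomial.eval Y (Φ j)) (hn : n ≤ g') (hd : ∀ j, (Φ j).totalDegree ≤ g') (j : Fin N) :
    h (dg (c.R j) 1) V ≤ 1 - θ := by
  by_contra hc
  rw [not_le] at hc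
  obtain ⟨E, hE, S, t, e, he, h1, p, κ, VV, A, hTy, ht, hwe, hA, hq, hRv, -⟩ := hv
  set Q1 : (T.rest E).VV (M + 1) := p.vv (t.Q.chg S.tr e he) with hQ1
  have hRv' : ∀ j, QS.rest E hE (c.R j) = qc Q1 (P.vI j) := fun j => hRv j
  have hV1 : vd (fun i => QS.rest E hE (c.q i)) 1 ≤ restL E hE V := by
    rw [QS.rest_vd]
    exact restL_mono E hE hV
  set eq := Equiv.ofBijective _ (spl_bij P) with heq
  set Φ1 : Fin (M + 1) → MvPolynomial (Fin n) (QS (T.rest E)) := fun a => Sum.elim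
    (fun i => MvPolynomial.C (qc Q1 (P.bI i))) (fun j => MvPolynomial.map (QS.rest E hE) (Φ j)) (eq.symm a) with hΦ1
  have hb : ∀ i, Φ1 (P.bI i) = MvPolynomial.C (qc Q1 (P.bI i)) := by
    intro i
    have e1 : eq.symm (P.bI i) = Sum.inl i := by
      rw [Equiv.symm_apply_eq]
      rfl
    rw [hΦ1]
    beta_reduce
    rw [e1]
    rfl
  have hvv : ∀ i, Φ1 (P.vI i) = MvPolynomial.map (QS.rest E hE) (Φ i) := by
    intro i
    have e1 : eq.symm (P.vI i) = Sum.inr i := by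
      rw [Equiv.symm_apply_eq]
      rfl
    rw [hΦ1]
    beta_reduce
    rw [e1]
    rfl
  have hY1 : Rl (fun i => QS.rest E hE (Y i)) (restL E hE V) := QS.Rl.rest E hE hY
  have hPK : ∀ a, Φ1 a ∈ PK (restL E hE V) := by
    intro a
    rcases P.cov a with ⟨i, rfl⟩ | ⟨i, rfl⟩
    · rw [hb]
      refine C_mem ((view_base P hA t.Q he h1 p i).trans ?_)
      have e1 : (fun i => p.qs (cQ S.tr e he h1 (qA P A t.Q i))) = fun i => QS.rest E hE (c.q i) :=
        funext fun i => (hq i).symm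
      rw [e1]
      exact hV1
    · rw [hvv]
      exact rest_PK E hE (hΦ i)
  have hev : ∀ i, MvPolynomial.eval (fun i => QS.rest E hE (Y i)) (MvPolynomial.map (QS.rest E hE) (Φ i)) =
      QS.rest E hE (c.R i) := by
    intro i
    rw [hR i, eval_hom]
  have hQ : ∀ a, QS.mk (TR.cor Q1 a) = MvPolynomial.eval (fun i => QS.rest E hE (Y i)) (Φ1 a) := by
    intro a
    rcases P.cov a with ⟨i, rfl⟩ | ⟨i, rfl⟩
    · rw [hb, MvPolynomial.eval_C]
      rfl
    · rw [hvv, hev, hRv' i]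
      rfl
  have hdeg : ∀ a, (Φ1 a).totalDegree ≤ g' := by
    intro a
    rcases P.cov a with ⟨i, rfl⟩ | ⟨i, rfl⟩
    · rw [hb, MvPolynomial.totalDegree_C]
      exact Nat.zero_le _
    · rw [hvv]
      exact (totalDegree_map_le _ _).trans (hd i)
  obtain ⟨X, hle, -, -, hX1, hX2⟩ := Pool.Agent.Helper97.GR.exists_leaf_der Q1 (restL E hE V)
    (fun i => QS.rest E hE (Y i)) Φ1 hPK hY1 hQ hg' hn hdeg
  have hh : 1 - θ < h (dg (MvPolynomial.eval (fun i => QS.rest E hE (Y i))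
      (MvPolynomial.map (QS.rest E hE) (Φ j))) 1) (restL E hE V) := by
    rw [hev, QS.rest_dg, h_restL_typ E hTy]
    exact hc
  obtain ⟨a, ha⟩ := Pool.Agent.Helper58.GR.grad_event hY1 (rest_PK E hE (hΦ j)) hθ1 hh
    (fun a k ω => ltan X k ω (Fin.cast hle a) (P.vI j)) (fun a => by
      obtain ⟨f, hf⟩ := QS.mk_surj (MvPolynomial.eval (fun i => QS.rest E hE (Y i))
        (MvPolynomial.pderiv a (MvPolynomial.map (QS.rest E hE) (Φ j))))
      obtain ⟨B, K, hB, hK, h2⟩ := hX2 a (P.vI j) f (by rw [hvv]; exact hf)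
      refine ⟨f, hf, K, hK, hB.mono ?_⟩
      filter_upwards [h2] with k hk ω hω hBω
      exact hk ω hω hBω)
  refine hN _ _ (hT.trn S t ht e he h1) (T.rest E) p X _ ha ?_ ?_
  · refine Eventually.of_forall fun k ω _ _ a j hj => ?_
    have h2 : w j = 1 := by
      unfold J1 at hj
      exact (Finset.mem_filter.mp hj).2
    rcases P.cov j with ⟨i, rfl⟩ | ⟨i, rfl⟩
    · exact hX1 _ _ (hb i) k ω a
    · exact absurd h2 (P.wv i).ne'
  · exact Eventually.of_forall fun k ω _ hω => ⟨_, _, hω⟩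

/-- row [ADM] -/
theorem st_adm (M : ℕ) : ST_ADM M := by
  intro _ Cl g r w ρ TT hT hR1 d N r' P hD S c hc V hV hL
  obtain ⟨n, Y, Φ, hY, hΦ, hQ⟩ := hL
  set g' : ℕ := 1 + n + ∑ j, (Φ j).totalDegree with hg'
  have hD' : STO (M + 1) (DKU (M + 1) (nd1 w + 1)) := by
    rw [nd1_spl P]
    exact hD
  obtain ⟨θ, hθ, hN⟩ := nou_e M Cl g r w ρ TT hT
    (fun S s hs => r1_tan (hT.wd S s hs) (hR1 S s hs)) hD' g'
  have hmin : min θ 1 ≤ θ := min_le_left _ _
  refine ⟨min θ 1, lt_min hθ one_pos, fun E hE j => ?_⟩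
  have hv := (Pool.Agent.Helper68.VW.st_vwp M Cl g r w ρ TT hT d N r' P S c hc).2 E hE
  have h1 := adm_core (θ := min θ 1) (g' := g') hT (by omega) (min_le_right _ _)
    (fun S s hs T p X A hA h2 h3 => hN S s hs T p X A hA h2 (by
      filter_upwards [h3] with k hk ω hω hAω
      obtain ⟨a, j, h4⟩ := hk ω hω hAω
      exact ⟨a, j, (T.dl_anti hmin k).trans h4⟩)) hv
    (V := restL E hE V) (by
      show vd (fun i => QS.rest E hE (c.q i)) 1 ≤ _
      rw [QS.rest_vd]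
      exact restL_mono E hE hV)
    (Y := fun i => QS.rest E hE (Y i)) (Φ := fun j => MvPolynomial.map (QS.rest E hE) (Φ j))
    (QS.Rl.rest E hE hY) (fun j => rest_PK E hE (hΦ j)) (fun j => by
      show QS.rest E hE (c.R j) = _
      rw [hQ j, eval_hom]) (by omega) (fun j => (totalDegree_map_le _ _).trans (by
        have h2 := Finset.single_le_sum (f := fun j => (Φ j).totalDegree) (fun _ _ => Nat.zero_le _)
          (Finset.mem_univ j)
        have h3 : (Φ j).totalDegree ≤ ∑ j, (Φ j).totalDegree := h2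
        omega)) j
  have e1 : dg ((c.rest E hE).R j) 1 = restL E hE (dg (c.R j) 1) := QS.rest_dg E hE _ _
  rw [e1] at h1
  exact h1

/-- row [AD1] -/
theorem st_ad1 (M : ℕ) : ST_AD1 M := by
  intro g r Cl w ρ TT N r' P l K hX _ S c' hc' V hV hL
  obtain ⟨c, O, i0, al, bV, hc, -, -, rfl⟩ := hc'
  obtain ⟨h0, h1, cb, hct, -, -, -⟩ := hc
  refine st_adm (M + 1) (fun m hm => hX.st m hm) Cl g r w ρ TT hX.hom hX.r1 0 N r' P hX.dk S c hct.cc V ?_ hL
  refine le_trans ?_ hV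
  show vd c.q 1 ≤ vd ![c.q 0, Pool.Agent.Helper5.DO.fl c l K i0] 1
  rw [vd_le]
  intro i
  have e1 : c.q i = (![c.q 0, Pool.Agent.Helper5.DO.fl c l K i0] : Fin 2 → QS S) 0 := by
    have hi : i = 0 := Subsingleton.elim (α := Fin 1) i 0
    rw [hi]
    rfl
  rw [e1]
  exact dg_le_vd _ 1 _

end

end Pool.Agent.Helper99.BLD
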