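import Pool.Agent.Helper99.BLD.Trl
import Pool.Agent.Helper99.BLD.Vwt
import Pool.Agent.Helper10.BLD.St1
import Pool.Agent.Helper37.DK2.Ncq

/-! THE BUILDER, one weight one, row [UC]: uniform connectedness at the deep point. A label of the space of a corner
with a deep corner `cb`, with small leaks at the digits of level `e` of the deep point and at the deep curves, is a label
of a truncation of the member of the homogeneous class which `cb` sees. -/

set_option autoImplicit false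

namespace Pool.Agent.Helper99.BLD

open Finset Filter Topology Pool.Agent.Helper69.RK Pool.Agent.Helper31.EC Pool.Agent.Helper31.EC.Sp
open Pool.Agent.Helper31.EC.QS Pool.Agent.Helper40.EL Pool.Agent.Helper84.MT Pool.Agent.Helper36.AM
open Pool.Agent.Helper13.AM Pool.Agent.Helper10.BLD Pool.Agent.Helper49.MD
open Pool.Agent.Helper38.NS (dp dL dP)
open Pool.Agent.Helper52.SL (tnF untF tnL untL nul_trn cellv_chg)

noncomputable section

variable {M g r N r' : ℕ} {w : Fin (M + 1) → ℝ} {ρ : ℝ} {Cl : MCl (M + 1)}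
  {TT : ∀ S : Sp, MSys S (M + 1) (lin g) (Fin r) → Prop}

/-! ### the point of the member -/

theorem pcr_rp {S : Sp} {m : ℕ} (Q : S.VV m) (e : ℝ) : PLe (rp (Q.dg e)) (pcr Q e) := by
  have h1 : pcr Q e = rpI (Q.bdd e).toInf := rfl
  have h2 : Q.dg e = cl (Q.bdd e).toInf := io_eq (Q.bdd e)
  rw [h1, h2]
  exact (rp_rpI _).1

theorem dg_spl {d : ℕ} {S : Sp} (P : Spl w d N) {A : Matrix (Fin (d + 1)) (Fin (d + 1)) ℝ} (hA : IsUnit A.det)
    (Q : S.VV (M + 1)) {a : ℝ} (ha : a ≤ 1) : Q.dg a = vd (qA P A Q) a ⊔ vd (Rv P Q) a := by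
  rw [← cel2L_self Q (Fin.last M) a, cel2L_spl P hA Q le_rfl ha]
  apply le_antisymm
  · refine sup_le (sup_le le_sup_left ?_) ((dg_le_vd (Rv P Q) a P.z).trans le_sup_right)
    rw [vd_le]
    intro j
    exact (dg_le_vd (Rv P Q) a j.1).trans le_sup_right
  · refine sup_le (le_sup_left.trans le_sup_left) ?_
    rw [vd_le]
    intro j
    by_cases hj : j = P.z
    · subst hj
      exact le_sup_right
    · exact ((dg_le_vd (fun j : {j : Fin N // j ≠ P.z} => Rv P Q j.1) a ⟨j, hj⟩).trans le_sup_right).trans le_sup_left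

/-! ### uniform connectedness -/

/-- **[UC]** no label of the space, uniformly over all levels `e` -/
theorem uc_core (hT : Hom M Cl g r w ρ TT) (P : Spl w 0 N) (r' : ℕ) {v : ℝ} (hv : 0 < v) :
    ∃ δ : ℝ, 0 < δ ∧ ∀ (T : Sp) (h0 : 0 < P.w P.z) (cb : CD (dp T (P.w P.z) h0) 0 N r'), CCo P ρ TT r' _ cb →
      ∀ e : ℝ, 0 < e → e ≤ 1 → ∀ A : Option (Fin r') → Part T,
        PLe (A none) (rp (uL _ h0 (vd cb.q e ⊔ vd cb.R e))) → (∀ i, PLe (A (some i)) (rp (uL _ h0 (cb.xi i)))) →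
          ∀ᶠ k in UF, ¬ HasLb (fun j => A j k) (δ * e) (v * e) := by
  have hκ : 0 < P.w P.z := by
    rw [spl_hw]
    exact zero_lt_one.trans_le (Pool.Agent.Helper91.BOX.hom_one_le hT _)
  obtain ⟨δ0, hδ0, hu⟩ := Pool.Agent.Helper37.DK2.unif hT (v := v / (2 * P.w P.z)) (by positivity)
  refine ⟨min (δ0 * P.w P.z / 2) (v / 8), lt_min (by positivity) (by positivity),
    fun T h0 cb hc e he he1 A hA0 hA1 => ?_⟩
  set δ := min (δ0 * P.w P.z / 2) (v / 8) with hδ
  have hd1 : δ ≤ δ0 * P.w P.z / 2 := min_le_left _ _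
  have hd2 : δ ≤ v / 8 := min_le_right _ _
  have hd0 : 0 < δ := lt_min (by positivity) (by positivity)
  by_contra hn
  have hh := UF_not hn
  have hch : ∀ k, ∃ l : FLab (T.F k), HasLb (fun j => A j k) (δ * e) (v * e) →
      (∀ j, l.leak (A j k) ≤ δ * e * (T.F k).n) ∧ v * e * (T.F k).n ≤ l.info := by
    intro k
    by_cases hk : HasLb (fun j => A j k) (δ * e) (v * e)
    · obtain ⟨l, a, b⟩ := hk
      exact ⟨l, fun _ => ⟨a, b⟩⟩
    · exact ⟨FLab.triv _, fun h => absurd h hk⟩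
  choose l hl using hch
  have hl' : ∀ᶠ k in UF, (∀ j, (l k).leak (A j k) ≤ δ * e * (T.F k).n) ∧ v * e * (T.F k).n ≤ (l k).info := by
    filter_upwards [hh] with k hk
    exact hl k (not_not.mp hk)
  have hleak : ∀ j, LeN T (fun k => (l k).leak (A j k)) (δ * e) := fun j =>
    LeN.of_ev (hl'.mono fun k hk => hk.1 j)
  have hinfo : ∀ᶠ k in UF, v * e * (T.F k).n ≤ (l k).info := hl'.mono fun k hk => hk.2
  -- the member
  obtain ⟨E, hE, S, t, e0, he0, he01, p, κ', V, Am, hTy, ht, hwe, hAm, hq, hR, hVK, hDM, hlink⟩ := hc.vw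
  obtain ⟨tm, htm⟩ : ∃ tm, tm = t.trn e0 he0 he01 := ⟨_, rfl⟩
  have htT : TT _ tm := by
    rw [htm]
    exact hT.trn S t ht e0 he0 he01
  have htT2 := hT.trn _ tm htT e he he1
  obtain ⟨X, hX0, hX1⟩ : ∃ X : Option (Fin r') → (dp T (P.w P.z) h0).L, X none = vd cb.q e ⊔ vd cb.R e ∧
      ∀ i, X (some i) = cb.xi i := ⟨fun j => j.elim (vd cb.q e ⊔ vd cb.R e) cb.xi, rfl, fun _ => rfl⟩
  have hA : ∀ j, PLe (A j) (rp (uL _ h0 (X j))) := by
    rintro (_ | i)
    · rw [hX0]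
      exact hA0
    · rw [hX1]
      exact hA1 i
  have hB : ∀ i, ∃ j, PLe (rp (restL E hE (X j))) ((tm.cndt e 0 i).pull p) := by
    rintro (_ | i0)
    · refine ⟨none, ?_⟩
      have e1 : restL E hE (X none) = p.map (tm.Q.dg e) := by
        have e2 : tm.Q.dg e = chgL S.tr e0 he0 (t.Q.dg (e0 * e)) := by
          rw [htm]
          exact t.Q.chg_dg S.tr e0 he0 e
        rw [hX0, e2, dg_spl P hAm t.Q (mul_le_one_of he0 he01 he1), restL_sup, ← QS.rest_vd, ← QS.rest_vd, chgL_sup,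
          p.map_sup, ← cQ_vd S.tr e0 he0 he01 _ he1, ← cQ_vd S.tr e0 he0 he01 _ he1, ← p.qs_vd, ← p.qs_vd]
        congr 1
        · congr 1
          funext i
          exact hq i
        · congr 1
          funext j
          exact hR j
      rw [e1]
      exact (rp_pull p (tm.Q.dg e)).1.trans (Pool.Agent.Helper38.NSL.PLe_pull (pcr_rp tm.Q e) p)
    · have e2 : (tm.cndt e 0 (some i0)).pull p = (((t.trn e0 he0 he01).pull p).lf i0).win 0 := by
        have e3 : tm.cndt e 0 (some i0) = (tm.lf i0).win (e * 0) := rfl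
        rw [e3, mul_zero, htm]
        exact (win_pull p ((t.trn e0 he0 he01).lf i0) 0).symm
      rw [e2]
      rcases hlink rfl i0 with hL | ⟨i, hL⟩
      · refine ⟨none, (rp_mono ?_).trans hL⟩
        rw [hX0]
        exact restL_mono E hE (sup_le_sup (vd_mono _ he1) (vd_mono _ he1))
      · refine ⟨some i, (rp_mono ?_).trans (hL 0 le_rfl zero_le_one)⟩
        rw [hX1]
        exact restL_mono E hE le_sup_left
  obtain ⟨l', m1, m2⟩ := transport h0 hTy hE p (fun i => tm.cndt e 0 i) A X hA hB none (by positivity) hleak hinfo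
  have hcon := hu _ _ htT2
  have m3 : ∀ᶠ k in UF, ∀ i, (l' k).leak (tm.cndt e 0 i k) ≤ (δ * e + δ0 * P.w P.z * e / 2) * (T.F k).n :=
    eventually_all.mpr fun i => m1 i (δ0 * P.w P.z * e / 2) (by positivity)
  obtain ⟨k, k1, k2, k3⟩ := (hcon.and (m3.and (m2 (v * e / 4) (by positivity)))).exists
  have hnn : (((S.chg S.tr e0 he0).chg (S.chg S.tr e0 he0).tr e he).F k).n = e * (P.w P.z * (T.F k).n) := by
    have := p.hn k
    show e * ((S.chg S.tr e0 he0).F k).n = _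
    rw [← this]
    rfl
  have hn0 := (T.F k).pos
  apply k1
  refine ⟨tnL e he l' k, fun i => ?_, ?_⟩
  · have e1 := tm.trn_leak (h0 := he) (h1 := he1) 0 (tnL e he l') i k
    rw [untL_tnL] at e1
    rw [e1, hnn]
    refine (k2 i).trans ?_
    have a1 : δ * e ≤ δ0 * P.w P.z / 2 * e := mul_le_mul_of_nonneg_right hd1 he.le
    nlinarith
  · show _ ≤ (l' k).info
    rw [hnn]
    have a1 : v / (2 * P.w P.z) * (e * (P.w P.z * (T.F k).n)) = v * e / 2 * (T.F k).n := by
      field_simp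
    rw [a1]
    have a2 : δ * e ≤ v / 8 * e := mul_le_mul_of_nonneg_right hd2 he.le
    have a3 : (2 * (δ * e) - v * e + v * e / 4) ≤ -(v * e / 2) := by linarith
    have a4 := mul_le_mul_of_nonneg_right a3 hn0.le
    linarith

/-- labels on events of extensions as labels of the extension -/
theorem hasLb_im {T W : Sp} {J : Type} (p : Pj W T) (B : ∀ k, (W.F k).Ω → Prop) (A : J → Part T) {δ v : ℝ} {k : ℕ}
    (h : HasLb (fun j => (A j).im p B k) δ v) : HasLb (fun j => ((A j).pull p).rest B k) δ v := by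
  obtain ⟨l, h1, h2⟩ := h
  have hn : ((W.rest B).F k).n = ((Sp.im p B).F k).n := p.hn k
  refine ⟨l.up' ((Sp.imq p B).fp k) hn, fun j => ?_, ?_⟩
  · have h3 := l.up'_leak ((Sp.imq p B).fp k) hn ((A j).im p B k)
    have h4 : ((Sp.imq p B).fp k).map ((A j).im p B k) = ((A j).pull p).rest B k := congrFun (Part.im_pull p B (A j)) k
    rw [h4] at h3
    refine (h3.trans (h1 j)).trans (le_of_eq ?_)
    rw [hn]
  · refine le_trans (le_of_eq ?_) (h2.trans (l.up'_info ((Sp.imq p B).fp k) hn))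
    rw [hn]

/-- **[UC]** on events of extensions -/
theorem uc_im (hA : ST_AXP) (hV : ST_VWP M) (hT : Hom M Cl g r w ρ TT) (P : Spl w 0 N) (r' : ℕ) {v : ℝ}
    (hv : 0 < v) :
    ∃ δ : ℝ, 0 < δ ∧ ∀ (T : Sp) (h0 : 0 < P.w P.z) (cb : CD (dp T (P.w P.z) h0) 0 N r'), CCo P ρ TT r' _ cb →
      ∀ e : ℝ, 0 < e → e ≤ 1 → ∀ A : Option (Fin r') → Part T,
        PLe (A none) (rp (uL _ h0 (vd cb.q e ⊔ vd cb.R e))) → (∀ i, PLe (A (some i)) (rp (uL _ h0 (cb.xi i)))) →
          ∀ (W : Sp) (p : Pj W T) (B : ∀ k, (W.F k).Ω → Prop), 0 < ul (W.pr B) →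
            ∀ᶠ k in UF, ¬ HasLb (fun j => (A j).im p B k) (δ * e) (v * e) := by
  obtain ⟨δ, hδ, h1⟩ := uc_core (M := M) (g := g) (r := r) (ρ := ρ) (TT := TT) hT P r' hv
  refine ⟨δ, hδ, fun T h0 cb hc e he he1 A hA0 hA1 W p B hB => ?_⟩
  have hc1 : CCo P ρ TT r' _ (cb.pull (dP _ h0 p)) :=
    ⟨(hA _ _ _ _ _ _ _ _ hc.ax0).1 _ _, (hV Cl g r w ρ TT hT 0 N r' P _ cb hc).1 _ _⟩
  have hc2 : CCo P ρ TT r' _ ((cb.pull (dP _ h0 p)).rest B hB) :=
    ⟨(hA _ _ _ _ _ _ _ _ hc1.ax0).2 _ _, (hV Cl g r w ρ TT hT 0 N r' P _ _ hc1).2 _ _⟩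
  have key : ∀ (j : Option (Fin r')) (x : (dp T (P.w P.z) h0).L) (y : (dp (W.rest B) (P.w P.z) h0).L),
      PLe (A j) (rp (uL _ h0 x)) → y = restL (S := dp W (P.w P.z) h0) B hB ((dP _ h0 p).map x) →
        PLe (((A j).pull p).rest B) (rp (uL (S := W.rest B) _ h0 y)) := by
    intro j x y hx hy
    have e1 : uL (S := W.rest B) (P.w P.z) h0 y = restL B hB (p.map (uL _ h0 x)) := by
      rw [hy, ← dP_uL]
      exact uL_rest _ h0 B hB _
    rw [e1]
    exact (ple_rest ((Pool.Agent.Helper38.NSL.PLe_pull hx p).trans (rp_pull p _).2) hB).trans (rp_rest hB _).2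
  have h2 := h1 (W.rest B) h0 ((cb.pull (dP _ h0 p)).rest B hB) hc2 e he he1
    (fun j => ((A j).pull p).rest B) (key none _ _ hA0 (by
      have e1 : vd ((cb.pull (dP _ h0 p)).rest B hB).q e =
          restL (S := dp W (P.w P.z) h0) B hB (vd (cb.pull (dP _ h0 p)).q e) :=
        QS.rest_vd (S := dp W (P.w P.z) h0) B hB _ e
      have e2 : vd ((cb.pull (dP _ h0 p)).rest B hB).R e =
          restL (S := dp W (P.w P.z) h0) B hB (vd (cb.pull (dP _ h0 p)).R e) :=
        QS.rest_vd (S := dp W (P.w P.z) h0) B hB _ e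
      have e3 : vd (cb.pull (dP _ h0 p)).q e = (dP _ h0 p).map (vd cb.q e) := (dP _ h0 p).qs_vd cb.q e
      have e4 : vd (cb.pull (dP _ h0 p)).R e = (dP _ h0 p).map (vd cb.R e) := (dP _ h0 p).qs_vd cb.R e
      rw [Pj.map_sup, restL_sup]
      exact congrArg₂ (· ⊔ ·) (e1.trans (congrArg _ e3)) (e2.trans (congrArg _ e4))))
    (fun i => key (some i) _ _ (hA1 i) (by
      have e1 : ((cb.pull (dP _ h0 p)).rest B hB).xi i =
          restL (S := dp W (P.w P.z) h0) B hB ((cb.pull (dP _ h0 p)).xi i) :=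
        CD.rest_xi (S := dp W (P.w P.z) h0) B hB (hc1.ax0.ln.bdd) i
      have e3 : (cb.pull (dP _ h0 p)).xi i = (dP _ h0 p).map (cb.xi i) := CD.pull_xi (dP _ h0 p) i
      exact e1.trans (congrArg _ e3)))
  filter_upwards [h2] with k hk
  exact fun hc => hk (hasLb_im p B A hc)

/-! ### systems over the space -/

/-- labels of truncations -/
theorem hasLb_trn {T : Sp} {m : ℕ} {E' : ℕ → ℕ} {ι : Type} (s : MSys T m E' ι) {e : ℝ} (he : 0 < e) (he1 : e ≤ 1)
    {δ v : ℝ} {k : ℕ} (h : HasLb (fun a => (s.trn e he he1).cnd 0 a k) δ v) :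
    HasLb (fun a => s.cndt e 0 a k) (δ * e) (v * e) := by
  obtain ⟨l, h1, h2⟩ := h
  have hn : ((T.chg T.tr e he).F k).n = e * (T.F k).n := rfl
  refine ⟨untF e he l, fun a => ?_, ?_⟩
  · have h3 : (untF e he l).leak (s.cndt e 0 a k) = l.leak ((s.trn e he he1).cnd 0 a k) := by
      rcases a with _ | i
      · have e1 : (s.Q.chg T.tr e he).cellv 1 k = s.Q.cellv e k := (cellv_chg s.Q e he 1 k).trans (by rw [mul_one])
        exact (congrArg (fun f => FLab.leak (F := (T.F k).chg ⊤ e he) l (fc (Setoid.ker f))) e1).symm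
      · have e1 : ((s.lf i).Y.chg T.tr e he).cellv 0 k = (s.lf i).Y.cellv (e * 0) k := cellv_chg (s.lf i).Y e he 0 k
        exact (congrArg (fun f => FLab.leak (F := (T.F k).chg ⊤ e he) l (fc ((s.lf i).La k ⊓ Setoid.ker f))) e1).symm
    rw [h3]
    refine (h1 a).trans (le_of_eq ?_)
    rw [hn]
    ring
  · refine le_trans (le_of_eq ?_) h2
    rw [hn]
    ring

/-- **[UC]** for systems over the space of a corner: all images on events of extensions and their truncations -/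
theorem uc_sys (hA : ST_AXP) (hV : ST_VWP M) (hT : Hom M Cl g r w ρ TT) (P : Spl w 0 N) (r' : ℕ) {v : ℝ}
    (hv : 0 < v) :
    ∃ δ : ℝ, 0 < δ ∧ ∀ (T : Sp) (h0 : 0 < P.w P.z) (cb : CD (dp T (P.w P.z) h0) 0 N r'), CCo P ρ TT r' _ cb →
      ∀ (m : ℕ) (E' : ℕ → ℕ) (s : MSys T m E' (Fin r')) (e : ℝ) (he : 0 < e) (he1 : e ≤ 1),
        PLe (pcr s.Q e) (rp (uL _ h0 (vd cb.q e ⊔ vd cb.R e))) →
        (∀ i, PLe ((s.lf i).win 0) (rp (uL _ h0 (cb.xi i)))) →
          ∀ (W : Sp) (p : Pj W T) (B : ∀ k, (W.F k).Ω → Prop) (hB : 0 < ul (W.pr B)),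
            ∀ᶠ k in UF, ¬ HasLb (fun a => ((s.im p B hB).trn e he he1).cnd 0 a k) δ v := by
  obtain ⟨δ, hδ, h1⟩ := uc_im (M := M) (g := g) (r := r) (ρ := ρ) (TT := TT) hA hV hT P r' hv
  refine ⟨δ, hδ, fun T h0 cb hc m E' s e he he1 hA0 hA1 W p B hB => ?_⟩
  have h2 := h1 T h0 cb hc e he he1 (s.cndt e 0) hA0 (fun i => by
    have e1 : s.cndt e 0 (some i) = (s.lf i).win (e * 0) := rfl
    rw [e1, mul_zero]
    exact hA1 i) W p B hB
  filter_upwards [h2] with k hk
  intro hc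
  apply hk
  have h3 := hasLb_trn (s.im p B hB) he he1 hc
  have e1 : (fun a => (s.im p B hB).cndt e 0 a k) = fun a => (s.cndt e 0 a).im p B k := by
    funext a
    rcases a with _ | i <;> rfl
  rw [e1] at h3
  exact h3

end

end Pool.Agent.Helper99.BLD
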