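import Pool.Agent.Helper52.KP.Glue
import Pool.Agent.Helper38.NSL.Ni

/-! ALL DIMENSIONS, row [NLW]: the label axiom `nlw` of a corner is stable under extensions and events. -/

set_option autoImplicit false

namespace Pool.Agent.Helper99.BLD

open Finset Filter Topology Pool.Agent.Helper69.RK Pool.Agent.Helper31.EC Pool.Agent.Helper31.EC.Sp
open Pool.Agent.Helper40.EL Pool.Agent.Helper52.KP

noncomputable section

/-! ### finite level -/

/-- leaks of the projected label -/
theorem leak_le_down {T F : FSp} (p : FPj T F) (hn : T.n = F.n) (l : FLab T) (x y : FL F) :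
    l.leak (p.map x) ≤ (Pool.Agent.Helper40.EL.FLab.down p hn l).leak x + l.leak (p.map y) := by
  have h0 : (Pool.Agent.Helper40.EL.FLab.down p hn l).leak x = I l.v (l.p.map p.top) (l.p.map (p.map x)) := by
    induction x using fc_ind
    rfl
  have h2 : l.p.map p.top ≤ l.p.top := l.p.map_le_top _
  have h3 : l.p.map (p.map x) ≤ l.p.map p.top := l.p.map_mono (p.map_le_top x)
  have h4 : I l.v l.p.top (l.p.map p.top) ≤ I l.v l.p.top (l.p.map (p.map y)) :=
    leak_cond (l.p.map_mono (p.map_le_top y)) h2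
  have h5 : I l.v (l.p.map p.top ⊔ l.p.top) (l.p.map (p.map x)) =
      I l.v (l.p.map p.top) (l.p.map (p.map x)) + I l.v l.p.top (l.p.map p.top ⊔ l.p.map (p.map x)) :=
    I_chain_right _ _ _ _
  rw [sup_eq_right.mpr h2, sup_eq_left.mpr h3] at h5
  show I l.v l.p.top (l.p.map (p.map x)) ≤ _
  rw [h0, h5]
  exact add_le_add_right h4 _

section
variable {T F : FSp} (p : FPj T F) (E : T.Ω → Prop)
variable (l1 : FLab (FSp.im p E)) (l2 : FLab (FSp.im p (fun ω => ¬ E ω)))

/-- the entropy of the glued label -/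
theorem glue_H : H (Pool.Agent.Helper52.KP.glue p E l1 l2).v ≤ T.pb E * H l1.v + (1 - T.pb E) * H l2.v + 1 := by
  have h1 := ((gT p E l1 l2).e_split (gD p E l1 l2) (Pool.Agent.Helper52.KP.glue p E l1 l2).V (gT p E l1 l2).Z).2
  rw [gD_pb] at h1
  have e1 : T.pb E * ((gT p E l1 l2).rest (gD p E l1 l2)).e (Pool.Agent.Helper52.KP.glue p E l1 l2).V
      (gT p E l1 l2).Z = T.pb E * l1.T.e l1.V l1.T.Z := by
    by_cases h : T.pb E = 0
    · rw [h, zero_mul, zero_mul]
    · congr 1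
      have h2 := (inlPj p E l1 l2 h).e_comap_base (Pool.Agent.Helper52.KP.glue p E l1 l2).V ⊤
      have e0 : Setoid.comap (inlPj p E l1 l2 h).π (Pool.Agent.Helper52.KP.glue p E l1 l2).V = l1.V := by
        apply Setoid.ext
        intro a b
        show Sum.map (Quotient.mk l1.V) (Quotient.mk l2.V) (Sum.inl a) =
          Sum.map (Quotient.mk l1.V) (Quotient.mk l2.V) (Sum.inl b) ↔ l1.V a b
        rw [Sum.map_inl, Sum.map_inl, Sum.inl.injEq]
        exact Quotient.eq (r := l1.V)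
      rw [e0] at h2
      have e3 : l1.T.e l1.V (Setoid.comap (inlPj p E l1 l2 h).π ⊤ ⊓ l1.T.Z) = l1.T.e l1.V l1.T.Z :=
        l1.T.e_congr_right fun _ _ _ _ => ⟨fun h => h.2, fun h => ⟨trivial, h⟩⟩
      have e4 : ((gT p E l1 l2).rest (gD p E l1 l2)).e (Pool.Agent.Helper52.KP.glue p E l1 l2).V
          (⊤ ⊓ ((gT p E l1 l2).rest (gD p E l1 l2)).Z) = ((gT p E l1 l2).rest (gD p E l1 l2)).e
          (Pool.Agent.Helper52.KP.glue p E l1 l2).V (gT p E l1 l2).Z :=
        ((gT p E l1 l2).rest (gD p E l1 l2)).e_congr_right fun _ _ _ _ => ⟨fun h => h.2, fun h => ⟨trivial, h⟩⟩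
      exact (e4.symm.trans h2.symm).trans e3
  have e2 : (1 - T.pb E) * ((gT p E l1 l2).rest (fun w => ¬ gD p E l1 l2 w)).e
      (Pool.Agent.Helper52.KP.glue p E l1 l2).V (gT p E l1 l2).Z = (1 - T.pb E) * l2.T.e l2.V l2.T.Z := by
    by_cases h : 1 - T.pb E = 0
    · rw [h, zero_mul, zero_mul]
    · congr 1
      have h2 := (inrPj p E l1 l2 h).e_comap_base (Pool.Agent.Helper52.KP.glue p E l1 l2).V ⊤
      have e0 : Setoid.comap (inrPj p E l1 l2 h).π (Pool.Agent.Helper52.KP.glue p E l1 l2).V = l2.V := by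
        apply Setoid.ext
        intro a b
        show Sum.map (Quotient.mk l1.V) (Quotient.mk l2.V) (Sum.inr a) =
          Sum.map (Quotient.mk l1.V) (Quotient.mk l2.V) (Sum.inr b) ↔ l2.V a b
        rw [Sum.map_inr, Sum.map_inr, Sum.inr.injEq]
        exact Quotient.eq (r := l2.V)
      rw [e0] at h2
      have e3 : l2.T.e l2.V (Setoid.comap (inrPj p E l1 l2 h).π ⊤ ⊓ l2.T.Z) = l2.T.e l2.V l2.T.Z :=
        l2.T.e_congr_right fun _ _ _ _ => ⟨fun h => h.2, fun h => ⟨trivial, h⟩⟩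
      have e4 : ((gT p E l1 l2).rest (fun w => ¬ gD p E l1 l2 w)).e (Pool.Agent.Helper52.KP.glue p E l1 l2).V
          (⊤ ⊓ ((gT p E l1 l2).rest (fun w => ¬ gD p E l1 l2 w)).Z) =
          ((gT p E l1 l2).rest (fun w => ¬ gD p E l1 l2 w)).e
          (Pool.Agent.Helper52.KP.glue p E l1 l2).V (gT p E l1 l2).Z :=
        ((gT p E l1 l2).rest (fun w => ¬ gD p E l1 l2 w)).e_congr_right
          fun _ _ _ _ => ⟨fun h => h.2, fun h => ⟨trivial, h⟩⟩
      exact (e4.symm.trans h2.symm).trans e3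
  have h3 := h1.trans_eq (congrArg (· + 1) (congrArg₂ (· + ·) e1 e2))
  exact h3

end

theorem aux1 {g p a b c : ℝ} (h : |g - (p * a + (1 - p) * b)| ≤ 1) (hb : b = 0) (p1 : p ≤ 1) (a0 : 0 ≤ a)
    (hc : a ≤ c) : g ≤ c + 1 ∧ p * a ≤ g + 1 := by
  have h1 := ab_le h
  rw [hb, mul_zero, add_zero] at h1
  have h2 : p * a ≤ 1 * a := mul_le_mul_of_nonneg_right p1 a0
  exact ⟨by linarith [h1.1], by linarith [h1.2]⟩

theorem aux2 {g p a b c : ℝ} (h : g ≤ p * a + (1 - p) * b + 1) (hb : b = 0) (p1 : p ≤ 1) (a0 : 0 ≤ a)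
    (hc : a ≤ c) : g ≤ c + 1 := by
  rw [hb, mul_zero, add_zero] at h
  have h2 : p * a ≤ 1 * a := mul_le_mul_of_nonneg_right p1 a0
  linarith

/-! ### spaces -/

section

variable {S T : Sp}

theorem rp_pull (p : Pj T S) (x : S.L) : PLe (rp (p.map x)) ((rp x).pull p) ∧ PLe ((rp x).pull p) (rp (p.map x)) := by
  have h1 := rp_rpI (p.mapI (rpo x))
  rw [← p.map_cl, cl_rpo] at h1
  exact h1

theorem rp_rest {E : ∀ k, (S.F k).Ω → Prop} (hE : 0 < ul (S.pr E)) (x : S.L) :
    PLe (rp (restL E hE x)) ((rp x).rest E) ∧ PLe ((rp x).rest E) (rp (restL E hE x)) := by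
  have h1 := rp_rpI (S := S.rest E) (restI E (rpo x))
  rw [← restL_cl E hE, cl_rpo] at h1
  exact h1

theorem nul_leak_congr {l : Lab S} {A B : Part S} (h : Nul S fun k => (l k).leak (A k)) (hAB : PLe A B) :
    Nul S fun k => (l k).leak (B k) :=
  (h.add hAB).of_le (Eventually.of_forall fun _ => FLab.leak_nonneg _ _)
    (Eventually.of_forall fun k => (l k).leak_le_leak (B k) (A k))

/-- LABELS OF THE STATE: what is known to the point and to all curves is known to the box -/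
def NlwA {ι : Type} (O : S.L) (ξ : ι → S.L) (K : S.L) : Prop :=
  ∀ l : Lab S, UB (fun k => H ((l k).v) / (S.F k).n) → Nul S (fun k => (l k).leak (rp O k)) →
    (∀ i, Nul S (fun k => (l k).leak (rp (ξ i) k))) → Nul S (fun k => (l k).leak (rp K k))

theorem NlwA.pull {ι : Type} {O K : S.L} {ξ : ι → S.L} (h : NlwA O ξ K) (p : Pj T S) :
    NlwA (p.map O) (fun i => p.map (ξ i)) (p.map K) := by
  intro l hu hO hξ
  have key : ∀ x : S.L, Nul T (fun k => (l k).leak (rp (p.map x) k)) → Nul T fun k => (l k).leak ((rp x).pull p k) :=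
    fun x hx => nul_leak_congr hx (rp_pull p x).1
  have dn : ∀ x : S.L, Nul T (fun k => (l k).leak (rp (p.map x) k)) → Nul S fun k => (l.down p k).leak (rp x k) :=
    fun x hx => ((Lab.nul_pj p).mp (key x hx)).of_le (Eventually.of_forall fun _ => FLab.leak_nonneg _ _)
      (Eventually.of_forall fun k => Pool.Agent.Helper40.EL.FLab.down_leak (p.fp k) (p.hn k) (l k) (rp x k))
  have hu' : UB (fun k => H ((l.down p k).v) / (S.F k).n) := by
    have e : (fun k => H ((l.down p k).v) / (S.F k).n) = fun k => H ((l k).v) / (T.F k).n := by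
      funext k
      rw [p.hn k]
      rfl
    rw [e]
    exact hu
  have h1 := h (l.down p) hu' (dn O hO) fun i => dn (ξ i) (hξ i)
  have h2 : Nul T fun k => (l k).leak ((rp K).pull p k) :=
    (((Lab.nul_pj p).mpr h1).add (key O hO)).of_le (Eventually.of_forall fun _ => FLab.leak_nonneg _ _)
      (Eventually.of_forall fun k => leak_le_down (p.fp k) (p.hn k) (l k) (rp K k) (rp O k))
  exact nul_leak_congr h2 (rp_pull p K).2

theorem part_im_id (E : ∀ k, (S.F k).Ω → Prop) (A : Part S) (k : ℕ) :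
    ((Sp.imq (Pj.id S) E).fp k).map (A.im (Pj.id S) E k) = A.rest E k := by
  have h1 : ((Sp.imq (Pj.id S) E).fp k).map (A.im (Pj.id S) E k) = (S.F k).rmap (E k) ((((Pj.id S)).fp k).map (A k)) :=
    FSp.imp_imap ((Pj.id S).fp k) (E k) (A k)
  refine h1.trans ?_
  show (S.F k).rmap (E k) _ = (S.F k).rmap (E k) (A k)
  congr 1
  generalize A k = x
  induction x using fc_ind
  rfl

theorem NlwA.rest {ι : Type} {O K : S.L} {ξ : ι → S.L} (h : NlwA O ξ K) (E : ∀ k, (S.F k).Ω → Prop)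
    (hE : 0 < ul (S.pr E)) : NlwA (restL E hE O) (fun i => restL E hE (ξ i)) (restL E hE K) := by
  intro l hu hO hξ
  set l1 : Lab (Sp.im (Pj.id S) E) := l.down (Sp.imq (Pj.id S) E) with hl1
  set l2 : Lab (Sp.im (Pj.id S) fun k ω => ¬ E k ω) := fun k => FLab.triv _ with hl2
  have key : ∀ x : S.L, Nul (S.rest E) (fun k => (l k).leak (rp (restL E hE x) k)) →
      Nul S fun k => (l k).leak ((rp x).rest E k) := fun x hx => nul_leak_congr hx (rp_rest hE x).1
  have hl2' : ∀ (x : Part S) (k : ℕ), (l2 k).leak (x.im (Pj.id S) (fun k ω => ¬ E k ω) k) = 0 :=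
    fun x k => FLab.triv_leak _
  have l1l : ∀ (x : Part S) (k : ℕ), (l1 k).leak (x.im (Pj.id S) E k) ≤ (l k).leak (x.rest E k) := by
    intro x k
    have h1 := Pool.Agent.Helper40.EL.FLab.down_leak ((Sp.imq (Pj.id S) E).fp k) ((Sp.imq (Pj.id S) E).hn k) (l k) (x.im (Pj.id S) E k)
    rw [part_im_id] at h1
    exact h1
  have gl : ∀ (x : Part S) (k : ℕ), (Lab.glue (Pj.id S) E l1 l2 k).leak (x k) ≤ (l k).leak (x.rest E k) + 1 ∧
      S.pr E k * (l1 k).leak (x.im (Pj.id S) E k) ≤ (Lab.glue (Pj.id S) E l1 l2 k).leak (x k) + 1 := by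
    intro x k
    exact aux1 (glue_leak ((Pj.id S).fp k) (E k) (l1 k) (l2 k) (x k)) (hl2' x k) ((S.F k).pb_le_one _)
      (FLab.leak_nonneg _ _) (l1l x k)
  have dn : ∀ x : S.L, Nul (S.rest E) (fun k => (l k).leak (rp (restL E hE x) k)) →
      Nul S fun k => (Lab.glue (Pj.id S) E l1 l2 k).leak (rp x k) :=
    fun x hx => ((key x hx).add (Nul.const S 1)).of_le (Eventually.of_forall fun _ => FLab.leak_nonneg _ _)
      (Eventually.of_forall fun k => (gl (rp x) k).1)
  have hu' : UB (fun k => H ((Lab.glue (Pj.id S) E l1 l2 k).v) / (S.F k).n) := by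
    have h2 : ∀ k, H ((l2 k).v) = 0 := fun k => H_bot
    have h3 : UB (fun k => H ((l k).v) / (S.F k).n + 1 / (S.F k).n) := hu.add (UB_of_tendsto (S.div_n_tendsto 1))
    refine UB.sandwich (UB_const 0) h3 ?_ ?_
    · exact Eventually.of_forall fun k => div_nonneg (H_nonneg _) (S.F k).pos.le
    · refine Eventually.of_forall fun k => ?_
      rw [← add_div]
      apply div_le_div_of_nonneg_right _ (S.F k).pos.le
      exact aux2 (glue_H ((Pj.id S).fp k) (E k) (l1 k) (l2 k)) (h2 k) ((S.F k).pb_le_one _) (H_nonneg _) le_rfl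
  have h1 := h (Lab.glue (Pj.id S) E l1 l2) hu' (dn O hO) fun i => dn (ξ i) (hξ i)
  have h2 : Nul S fun k => (l1 k).leak ((rp K).im (Pj.id S) E k) :=
    Nul.div_pr hE h1 (fun _ => FLab.leak_nonneg _ _) fun k => (gl (rp K) k).2
  have h3 : Nul S fun k => (l k).leak ((rp K).rest E k) := by
    refine (h2.add (key O hO)).of_le (Eventually.of_forall fun _ => FLab.leak_nonneg _ _)
      (Eventually.of_forall fun k => ?_)
    have h4 := leak_le_down ((Sp.imq (Pj.id S) E).fp k) ((Sp.imq (Pj.id S) E).hn k) (l k)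
      ((rp K).im (Pj.id S) E k) ((rp O).im (Pj.id S) E k)
    rw [part_im_id, part_im_id] at h4
    exact h4
  exact nul_leak_congr (S := S.rest E) h3 (rp_rest hE K).2

end

end

end Pool.Agent.Helper99.BLD
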