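import Pool.Agent.Helper37.DK2.Nun
import Pool.Agent.Helper42.NS.Tow

/-! NOUNIT over extensions of the members, on events: there are no types with unit directions in the coordinates of weight
larger than one over an extension of a member of a homogeneous class. -/

set_option autoImplicit false

namespace Pool.Agent.Helper99.BLD

open Finset Filter Topology Matrix Pool.Agent.Helper69.RK Pool.Agent.Helper31.EC Pool.Agent.Helper31.EC.Sp
open Pool.Agent.Helper40.EL Pool.Agent.Helper89.LX Pool.Agent.Helper3.LF Pool.Agent.Helper84.MT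
open Pool.Agent.Helper49.MD Pool.Agent.Helper36.AM Pool.Agent.Helper37.DK2
open Pool.Agent.Helper42.NS (imc)

noncomputable section

variable {S T : Sp} {M m g r : ℕ} {E : ℕ → ℕ} {ι κ : Type}

theorem ncq_pull {J : Finset (Fin M)} {h : ℝ} (h0 : 0 < h) {s : MSys S M E ι} (H : NCq J h s) (p : Pj T S) :
    NCq J h (s.pull p) := by
  intro δ hδ
  filter_upwards [H δ hδ] with n hk
  have hk' : NCf (S.F n) (cQ1 (S.F n) (ob s n)) (Fin 1) (fun ω (a : Σ i, Fin (s.lf i).e) (j : J) =>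
    mtan (ob s n) ω a j) h δ := hk
  have e1 : dlF (T.F n) 1 = dlF (S.F n) 1 := by
    unfold dlF
    rw [p.hn n]
  have hC : ∀ ω ω', (T.F n).μ ω ≠ 0 → (T.F n).μ ω' ≠ 0 → ((cQ1 (T.F n) (ob (s.pull p) n)) ω ω' ↔
      (cQ1 (S.F n) (ob s n)) ((p.fp n).π ω) ((p.fp n).π ω')) := by
    intro ω ω' _ _
    show cell (dlF (T.F n) 1) (s.Q.v n (p.π n ω)) = cell (dlF (T.F n) 1) (s.Q.v n (p.π n ω')) ↔
      cell (dlF (S.F n) 1) (s.Q.v n (p.π n ω)) = cell (dlF (S.F n) 1) (s.Q.v n (p.π n ω'))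
    rw [e1]
  have h3 := NCf.pull (p.fp n) (p.hn n) hC h0 hδ hk'
  exact h3

/-- the projection between diagonals -/
def dpj {S T : ℕ → Sp} (p : ∀ i, Pj (T i) (S i)) (J : ℕ → ℕ) (hT : Tendsto (fun k => ((T (J k)).F k).n) UF atTop)
    (hS : Tendsto (fun k => ((S (J k)).F k).n) UF atTop) : Pj (dsp T J hT) (dsp S J hS) where
  π := fun k => (p (J k)).π k
  law := fun k => (p (J k)).law k
  hZ := fun k => (p (J k)).hZ k
  hn := fun k => (p (J k)).hn k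

/-- LIMITS of members of a class with one more type over extensions -/
theorem exists_lim_addx {TT : ∀ S : Sp, MSys S M (lin g) (Fin r) → Prop} (hdg : DiagCl (lft TT)) (g' : ℕ)
    (S T : ℕ → Sp) (p : ∀ i, Pj (T i) (S i)) (s : ∀ i, MSys (S i) M (lin g) (Fin r)) (hs : ∀ i, TT (S i) (s i))
    (X : ∀ i, Leaf (T i) ((p i).vv (s i).Q) (lin g'))
    (P : ℕ → ∀ F : FSp, FLf F.Ω M → Prop) (hP : ∀ i, ∀ᶠ k in UF, P i ((T i).F k) (lob (X i) k)) :
    ∃ (J : ℕ → ℕ) (S' T' : Sp) (q : Pj T' S') (t : MSys S' M (lin g) (Fin r)) (Y : Leaf T' (q.vv t.Q) (lin (max g g'))),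
      Tendsto J UF atTop ∧ TT S' t ∧ ∀ᶠ k in UF, P (J k) (T'.F k) (lob Y k) := by
  obtain ⟨R, hR, h2⟩ := exists_lim (S := T) fun i => (⟨(p i).vv (s i).Q, Sum.elim
    (fun a => (((s i).lf a).pull (p i)).monoE (lin_mono (le_max_left g g')))
    (fun _ : Fin 1 => (X i).monoE (lin_mono (le_max_right g g')))⟩ : MSys (T i) M (lin (max g g')) (Fin r ⊕ Fin 1))
  obtain ⟨R', hR', h3⟩ := hdg S (fun i => ob (s i)) (fun i => ⟨s i, Eventually.of_forall fun _ => rfl, hs i⟩)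
  obtain ⟨J, hJ⟩ := exists_slo T (fun i j k => (R i j k ∧ R' i j k) ∧ P j ((T j).F k) (lob (X j) k))
    fun i j => ((hR i j).and (hR' i j)).and (hP j)
  have hlS : Tendsto (fun k => ((S (J k)).F k).n) UF atTop := by
    refine hJ.lim.congr fun k => ?_
    exact (p (J k)).hn k
  obtain ⟨t, ht⟩ := h2 J hJ.left.left
  obtain ⟨t', ht', h4⟩ := h3 J ⟨hJ.tend, hlS, hJ.left.right.slow⟩
  have hp : ∀ᶠ k in UF, P (J k) ((T (J k)).F k) (lob (X (J k)) k) := hJ.right.slow 0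
  refine ⟨J, _, _, dpj p J hJ.lim hlS, t', (t.lf (Sum.inr 0)).congrQ ⟨fun _ => 0, Sp.Sub_const _ le_rfl, ?_⟩,
    hJ.tend, h4, ?_⟩
  · filter_upwards [ht, ht'] with k a b ω _ i
    have e1 : t.Q.v k = ((p (J k)).vv (s (J k)).Q).v k := congrArg FMs.Q a
    have e2 : t'.Q.v k = (s (J k)).Q.v k := congrArg FMs.Q b
    have e3 : ((dpj p J hJ.lim hlS).vv t'.Q).v k ω i = t.Q.v k ω i := by
      rw [e1]
      show t'.Q.v k ((p (J k)).π k ω) i = (s (J k)).Q.v k ((p (J k)).π k ω) i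
      rw [e2]
    rw [e3, sub_self, abs_zero, zero_mul]
  · filter_upwards [ht, hp] with k a b
    have e1 : lob (t.lf (Sum.inr 0)) k = lob (X (J k)) k := congrArg (fun x => FMs.lf x (Sum.inr 0)) a
    have e2 : P (J k) ((T (J k)).F k) (lob (t.lf (Sum.inr 0)) k) := by
      rw [e1]
      exact b
    exact e2

/-- a system with more types over an extension of a member of a homogeneous class is not in a class with the structure
theorem -/
theorem not_stox {Cl : MCl (M + 1)} {w : Fin (M + 1) → ℝ} {ρ : ℝ} {TT : ∀ S : Sp, MSys S (M + 1) (lin g) (Fin r) → Prop}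
    (hT : Hom M Cl g r w ρ TT) {s : MSys S (M + 1) (lin g) (Fin r)} (hs : TT S s) (p : Pj T S) {g' : ℕ} (hg : g ≤ g')
    {n : ℕ} (l : Fin n → Leaf T (mE (s.pull p) hg).Q (lin g')) {D : MCl (M + 1)} (hD : STO (M + 1) D)
    (hU : D T g' (r + n) (((mE (s.pull p) hg).union l).ren (finSumFinEquiv (m := r) (n := n)).symm)) : False := by
  have h1 := hD _ _ _ _ hU
  set U := ((mE (s.pull p) hg).union l).ren (finSumFinEquiv (m := r) (n := n)).symm with hUd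
  have hsur : Function.Surjective (finSumFinEquiv (m := r) (n := n)).symm :=
    (finSumFinEquiv (m := r) (n := n)).symm.surjective
  -- the volume
  have h2 : (M : ℝ) + 1 ≤ volO U 0 := by
    have h3 := hT.hull S s hs
    have hb : BddBelow (Set.range fun D => s.vol D 0) := by
      by_contra hc
      have h4 : volO s 0 = 0 := Real.iInf_of_not_bddBelow hc
      rw [h4] at h3
      have : (0 : ℝ) < (M : ℝ) + 1 := by positivity
      linarith
    rw [← h3]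
    unfold volO
    apply le_ciInf
    intro D
    have h5 : U.vol D 0 = ((mE (s.pull p) hg).union l).vol D 0 := ((mE (s.pull p) hg).union l).vol_ren hsur D 0
    rw [h5]
    refine (ciInf_le hb D).trans ?_
    rw [← s.vol_pull p]
    exact (le_of_eq (vol_mE (s.pull p) hg D 0).symm).trans ((mE (s.pull p) hg).vol_union_ge l D 0)
  -- the entropy
  have h4 : HQ U 0 ≤ (M : ℝ) + 1 - ρ := by
    refine (H_up1_le _ _).trans (le_of_eq ?_)
    have e1 : U.Q.dg 1 = p.map (s.Q.dg 1) := (Pj.map_dg p s.Q 1).symm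
    rw [e1, p.H_map, H_dg_pcd]
    exact hom_HQ hT hs
  have h8 := hT.rho
  linarith

/-- NOUNIT over extensions -/
theorem nou_x (M : ℕ) (Cl : MCl (M + 1)) (g r : ℕ) (w : Fin (M + 1) → ℝ) (ρ : ℝ)
    (TT : ∀ S : Sp, MSys S (M + 1) (lin g) (Fin r) → Prop) (hT : Hom M Cl g r w ρ TT)
    (hR : ∀ S s, TT S s → R1 (J1 w) s) (hD : STO (M + 1) (DKU (M + 1) (nd1 w + 1))) (g' : ℕ) : ∃ θ : ℝ, 0 < θ ∧
      ∀ (S : Sp) (s : MSys S (M + 1) (lin g) (Fin r)), TT S s → ∀ (T : Sp) (p : Pj T S)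
        (X : Leaf T (p.vv s.Q) (lin g')),
          (∀ᶠ k in UF, ∀ ω, (T.F k).μ ω ≠ 0 → ∀ a, ∀ j ∈ J1 w, ltan X k ω a j = 0) →
            ¬ ∀ᶠ k in UF, ∀ ω, (T.F k).μ ω ≠ 0 → ∃ a j, T.dl θ k ≤ |ltan X k ω a j| := by
  have h1w : ∀ j, 1 ≤ w j := fun j => hT.one ▸ hT.mono (Fin.zero_le j)
  by_cases hw : w (Fin.last M) = 1
  · have hall : ∀ j, j ∈ J1 w := by
      intro j
      unfold J1
      rw [Finset.mem_filter]
      exact ⟨Finset.mem_univ _, le_antisymm (hw ▸ hT.mono (Fin.le_last j)) (h1w j)⟩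
    refine ⟨1, one_pos, fun S s _ T p X h0 h1 => ?_⟩
    obtain ⟨k, a, b⟩ := (h0.and h1).exists
    obtain ⟨ω, hω⟩ := exists_supp (T.F k)
    obtain ⟨c, j, h⟩ := b ω hω
    rw [a ω hω c j (hall j), abs_zero] at h
    exact absurd h (not_le.mpr (T.dl_pos 1 k))
  · obtain ⟨m, rfl⟩ : ∃ m, M = m + 1 := by
      rcases M with _ | m
      · exact absurd hT.one hw
      · exact ⟨m, rfl⟩
    obtain ⟨h₀, hh0, hq⟩ := hom_ncq hT hw
    by_contra hn
    have h1 : ∀ i : ℕ, ∃ (S T : Sp) (p : Pj T S) (s : MSys S (m + 1 + 1) (lin g) (Fin r))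
        (X : Leaf T (p.vv s.Q) (lin g')), TT S s ∧
        (∀ᶠ k in UF, ∀ ω, (T.F k).μ ω ≠ 0 → ∀ a, ∀ j ∈ J1 w, ltan X k ω a j = 0) ∧
          ∀ᶠ k in UF, ∀ ω, (T.F k).μ ω ≠ 0 → ∃ a j, T.dl (1 / ((i : ℝ) + 1)) k ≤ |ltan X k ω a j| := by
      intro i
      by_contra hi
      refine hn ⟨1 / ((i : ℝ) + 1), by positivity, fun S s hs T p X h0 h1 => hi ⟨S, T, p, s, X, hs, h0, h1⟩⟩
    choose S T p s X hs hJ hU using h1
    obtain ⟨I, S', T', q, t, Y, hI, ht, hP⟩ := exists_lim_addx (M := m + 1 + 1) hT.dg g' S T p s hs X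
      (fun i F x => (∀ ω, F.μ ω ≠ 0 → ∀ a, ∀ j ∈ J1 w, ftan x ω a j = 0) ∧
        ∀ ω, F.μ ω ≠ 0 → ∃ a j, dlF F (1 / ((i : ℝ) + 1)) ≤ |ftan x ω a j|)
      (fun i => (hJ i).and (hU i))
    have hne : (J1 w).Nonempty := ⟨0, by
      unfold J1
      rw [Finset.mem_filter]
      exact ⟨Finset.mem_univ _, hT.one⟩⟩
    have hq' : NCq (J1 w) h₀ (mE (t.pull q) (le_max_left g g')) := ncq_pull hh0 (hq S' t ht (hR S' t ht)) q
    have hnc : NC ((J1 w).card + 1) h₀ ((mE (t.pull q) (le_max_left g g')).union fun _ : Fin 1 => Y) := by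
      refine NCq.nou hne hh0 hq' (fun _ : Fin 1 => Y) ⟨_, Sp.Sub_diag T' hI, ?_⟩
      refine Typ_true.mono (hP.mono fun k hk ω hω _ => ?_)
      obtain ⟨a, j, h2⟩ := hk.2 ω hω
      refine ⟨0, a, fun j hj => hk.1 ω hω a j hj, j, ?_⟩
      have h3 : (2 : ℝ) ^ ((1 / ((I k : ℝ) + 1)) * (T'.F k).n) * dlF (T'.F k) (1 / ((I k : ℝ) + 1)) = 1 := by
        unfold dlF
        rw [← Real.rpow_add (by norm_num), add_neg_cancel, Real.rpow_zero]
      have h4 : (2 : ℝ) ^ ((1 / ((I k : ℝ) + 1)) * (T'.F k).n) * dlF (T'.F k) (1 / ((I k : ℝ) + 1)) ≤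
          (2 : ℝ) ^ ((1 / ((I k : ℝ) + 1)) * (T'.F k).n) * |ltan Y k ω a j| :=
        mul_le_mul_of_nonneg_left h2 (by positivity)
      exact h3.symm.le.trans h4
    obtain ⟨n, hn'⟩ := exists_nat_one_div_lt hh0
    refine not_stox hT ht q (le_max_left g g') (fun _ : Fin 1 => Y) hD ⟨n, ?_⟩
    rw [J1_card] at hnc
    exact (hnc.le (by positivity) hn'.le).ren (finSumFinEquiv (m := r) (n := 1)).symm.surjective

/-- NOUNIT over extensions, on events -/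
theorem nou_e (M : ℕ) (Cl : MCl (M + 1)) (g r : ℕ) (w : Fin (M + 1) → ℝ) (ρ : ℝ)
    (TT : ∀ S : Sp, MSys S (M + 1) (lin g) (Fin r) → Prop) (hT : Hom M Cl g r w ρ TT)
    (hR : ∀ S s, TT S s → R1 (J1 w) s) (hD : STO (M + 1) (DKU (M + 1) (nd1 w + 1))) (g' : ℕ) : ∃ θ : ℝ, 0 < θ ∧
      ∀ (S : Sp) (s : MSys S (M + 1) (lin g) (Fin r)), TT S s → ∀ (T : Sp) (p : Pj T S)
        (X : Leaf T (p.vv s.Q) (lin g')) (A : ∀ k, (T.F k).Ω → Prop), 0 < ul (T.pr A) →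
          (∀ᶠ k in UF, ∀ ω, (T.F k).μ ω ≠ 0 → A k ω → ∀ a, ∀ j ∈ J1 w, ltan X k ω a j = 0) →
            ¬ ∀ᶠ k in UF, ∀ ω, (T.F k).μ ω ≠ 0 → A k ω → ∃ a j, T.dl θ k ≤ |ltan X k ω a j| := by
  obtain ⟨θ, hθ, h1⟩ := nou_x M Cl g r w ρ TT hT hR hD g'
  refine ⟨θ, hθ, fun S s hs T p X A hA h2 h3 => ?_⟩
  have h4 : ∀ᶠ k in UF, ∀ ω, ((Sp.im (Pj.id T) A).F k).μ ω ≠ 0 → (T.F k).μ ω ≠ 0 ∧ A k ω := by
    filter_upwards [eventually_gt_of_lt_ul (UB_pr A) (half_lt_self hA)] with k hk ω hω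
    have e1 : ((Sp.im (Pj.id T) A).F k).μ = (T.F k).restμ (A k) := push_id _
    rw [e1] at hω
    obtain ⟨a, b⟩ := (T.F k).rest_supp (A k) ω hω
    refine ⟨a, b ?_⟩
    have : 0 < T.pr A k := lt_trans (by positivity) hk
    exact this.ne'
  refine h1 _ _ (hT.im S s hs T ((Pj.id T).comp p) A hA) _ (imc p (Pj.id T) A) (X.im (Pj.id T) A hA) ?_ ?_
  · filter_upwards [h2, h4] with k a b ω hω c j hj
    exact a ω (b ω hω).1 (b ω hω).2 c j hj
  · filter_upwards [h3, h4] with k a b ω hω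
    exact a ω (b ω hω).1 (b ω hω).2

end

end Pool.Agent.Helper99.BLD
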