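import Pool.Agent.Helper99.BLD.Nlw
import Pool.Agent.Helper10.BLD.U
import Pool.Agent.Helper81.MT.Trn

/-! Transport of labels with small leaks: from a space to the target of a projection of a typical event of the deep
space, at the level of rates. -/

set_option autoImplicit false

namespace Pool.Agent.Helper99.BLD

open Finset Filter Topology Pool.Agent.Helper69.RK Pool.Agent.Helper31.EC Pool.Agent.Helper31.EC.Sp
open Pool.Agent.Helper40.EL Pool.Agent.Helper52.KP Pool.Agent.Helper10.BLD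
open Pool.Agent.Helper38.NS (dp dL dP)
open Pool.Agent.Helper52.SL (tnF untF tnL untL nul_trn)

noncomputable section

/-! ### rates from above -/

/-- `f ≤ (a + o(1)) n` -/
def LeN (S : Sp) (f : ℕ → ℝ) (a : ℝ) : Prop := ∀ η : ℝ, 0 < η → ∀ᶠ k in UF, f k ≤ (a + η) * (S.F k).n

section

variable {S T : Sp} {f g : ℕ → ℝ} {a b : ℝ}

theorem LeN.of_ev (h : ∀ᶠ k in UF, f k ≤ a * (S.F k).n) : LeN S f a := by
  intro η hη
  filter_upwards [h] with k hk
  have := (S.F k).pos
  nlinarith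

theorem LeN.of_nul (h : Nul S f) : LeN S f 0 := by
  intro η hη
  filter_upwards [h.eventually (gt_mem_nhds hη)] with k hk
  rw [zero_add]
  rw [div_lt_iff₀ (S.F k).pos] at hk
  exact hk.le

theorem LeN.add (hf : LeN S f a) (hg : LeN S g b) : LeN S (fun k => f k + g k) (a + b) := by
  intro η hη
  filter_upwards [hf (η / 2) (by linarith), hg (η / 2) (by linarith)] with k h1 h2
  have := (S.F k).pos
  nlinarith

theorem LeN.mono (hf : LeN S f a) (h : ∀ᶠ k in UF, g k ≤ f k) : LeN S g a := by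
  intro η hη
  filter_upwards [hf η hη, h] with k h1 h2
  exact h2.trans h1

theorem LeN.add_nul (hf : LeN S f a) (hg : Nul S g) {f' : ℕ → ℝ} (h : ∀ᶠ k in UF, f' k ≤ f k + g k) :
    LeN S f' a := by
  have h1 := hf.add (LeN.of_nul hg)
  rw [add_zero] at h1
  exact h1.mono h

/-- division by a probability which tends to one -/
theorem LeN.div_typ (ha : 0 ≤ a) (hf : LeN S f a) {p : ℕ → ℝ} (hp : Tendsto p UF (𝓝 1)) (hg : ∀ k, 0 ≤ g k)
    (h : ∀ k, p k * g k ≤ f k + 1) : LeN S g a := by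
  intro η hη
  have h1 : (a + η / 2) / (a + η) < 1 := by
    rw [div_lt_one (by linarith)]
    linarith
  have h2 := hf.add (LeN.of_nul (Nul.const S 1))
  rw [add_zero] at h2
  filter_upwards [h2 (η / 2) (by linarith), hp.eventually (lt_mem_nhds h1)] with k a1 a2
  have a3 : (a + η / 2) / (a + η) * g k ≤ (a + η / 2) * (S.F k).n :=
    ((mul_le_mul_of_nonneg_right a2.le (hg k)).trans (h k)).trans a1
  have a4 : 0 < a + η := by linarith
  have a5 : 0 < a + η / 2 := by linarith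
  rw [div_mul_eq_mul_div, div_le_iff₀ a4] at a3
  have a6 : (a + η / 2) * g k ≤ (a + η / 2) * ((a + η) * (S.F k).n) := by
    refine a3.trans (le_of_eq ?_)
    ring
  exact le_of_mul_le_mul_left a6 a5

theorem leak_congr' {l : Lab S} {A B : Part S} (h : LeN T (fun k => (l k).leak (A k)) a) (hAB : PLe A B)
    (hT : ∀ g : ℕ → ℝ, Nul S g → Nul T g) : LeN T (fun k => (l k).leak (B k)) a :=
  h.add_nul (hT _ hAB) (Eventually.of_forall fun k => (l k).leak_le_leak (B k) (A k))

end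

/-! ### the deep space -/

section

variable {T : Sp} {κ : ℝ} (h0 : 0 < κ)

/-- the representative in the deep space -/
theorem rp_dL (x : T.L) : PLe (rp (dL κ h0 x)) (rpI (chgI T.tr κ h0 (rpo x))) ∧
    PLe (rpI (chgI T.tr κ h0 (rpo x))) (rp (dL κ h0 x)) := by
  have h1 := rp_rpI (S := dp T κ h0) (chgI T.tr κ h0 (rpo x))
  have e : Sp.cl (chgI T.tr κ h0 (rpo x)) = dL κ h0 x := by
    rw [← chgL_cl, cl_rpo]
    rfl
  rwa [e] at h1

theorem ple_rest {S : Sp} {A B : Part S} (hAB : PLe A B) {E : ∀ k, (S.F k).Ω → Prop} (hE : 0 < ul (S.pr E)) :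
    PLe (A.rest E) (B.rest E) :=
  Nul.div_pr (S := S) hE hAB (fun _ => h_nonneg _ _) fun k => by
    have h1 := (S.F k).rmap_h_le (E k) (A k) (B k)
    have h2 : (S.F k).pb (E k) * h ((A.rest E) k) ((B.rest E) k) ≤ h (A k) (B k) := h1
    exact h2.trans (by linarith)

variable {E : ∀ k, ((dp T κ h0).F k).Ω → Prop} (hEt : Typ (S := dp T κ h0) E) (hE : 0 < ul ((dp T κ h0).pr E))
  {S0 : Sp} (p0 : Pj ((dp T κ h0).rest E) S0)

include hEt in
/-- TRANSPORT OF LABELS -/
theorem transport {ι J : Type} (B : ι → Part S0) (A : J → Part T) (X : J → (dp T κ h0).L)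
    (hA : ∀ j, PLe (A j) (rp (uL κ h0 (X j)))) (hB : ∀ i, ∃ j, PLe (rp (restL E hE (X j))) ((B i).pull p0))
    (i₀ : ι) {l : Lab T} {a v : ℝ} (ha : 0 ≤ a) (hl : ∀ j, LeN T (fun k => (l k).leak (A j k)) a)
    (hv : ∀ᶠ k in UF, v * (T.F k).n ≤ (l k).info) :
    ∃ l' : Lab S0, (∀ i, LeN T (fun k => (l' k).leak (B i k)) a) ∧ LeN T (fun k => -(l' k).info) (2 * a - v) := by
  have hd : ∀ g : ℕ → ℝ, Nul (dp T κ h0) g → Nul T g := fun g hg => nul_trn.mp hg
  have hpr : Tendsto ((dp T κ h0).pr E) UF (𝓝 1) := (Typ_iff E).mp hEt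
  -- the deep space
  obtain ⟨L1, hL1⟩ : ∃ L1 : Lab (dp T κ h0), L1 = tnL κ h0 l := ⟨_, rfl⟩
  have s1 : ∀ j, LeN T (fun k => (L1 k).leak (rp (X j) k)) a := by
    intro j
    have b1 := leak_congr' (T := T) (hl j) (hA j) fun g hg => hg
    have b2 : LeN T (fun k => (L1 k).leak (rpI (chgI T.tr κ h0 (rpo (uL κ h0 (X j)))) k)) a := by
      refine b1.mono (Eventually.of_forall fun k => ?_)
      rw [hL1]
      exact le_rfl
    have b3 := (rp_dL h0 (uL κ h0 (X j))).2
    rw [dL_uL] at b3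
    exact leak_congr' b2 b3 hd
  have i1 : ∀ k, (l k).info = (L1 k).info := fun k => by rw [hL1]; rfl
  -- the event
  obtain ⟨L2, hL2⟩ : ∃ L2 : Lab ((dp T κ h0).rest E), L2 = L1.rst E := ⟨_, rfl⟩
  have s2 : ∀ j, LeN T (fun k => (L2 k).leak ((rp (X j)).rest E k)) a := by
    intro j
    refine LeN.div_typ ha (s1 j) hpr (fun k => FLab.leak_nonneg _ _) fun k => ?_
    rw [hL2]
    exact (L1 k).rst_leak_le (E k) (rp (X j) k)
  have s3 : ∀ j, LeN T (fun k => (L2 k).leak (rp (restL E hE (X j)) k)) a := fun j =>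
    leak_congr' (s2 j) (rp_rest hE (X j)).2 fun g hg => hd g hg
  have s4 : ∀ i, LeN T (fun k => (L2 k).leak ((B i).pull p0 k)) a := by
    intro i
    obtain ⟨j, hj⟩ := hB i
    exact leak_congr' (s3 j) hj fun g hg => hd g hg
  refine ⟨L2.down p0, fun i => (s4 i).mono (Eventually.of_forall fun k => ?_), ?_⟩
  · exact Pool.Agent.Helper40.EL.FLab.down_leak (p0.fp k) (p0.hn k) (L2 k) (B i k)
  -- the information
  obtain ⟨j, -⟩ := hB i₀
  have hH : Nul T (fun k => (1 - (dp T κ h0).pr E k) * H ((rp (X j)).rest (fun k ω => ¬ E k ω) k)) := by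
    apply hd
    have c1 : UB (fun k => H ((rp (X j)).rest (fun k ω => ¬ E k ω) k) / ((dp T κ h0).F k).n) :=
      rpI_Bd (S := (dp T κ h0).rest fun k ω => ¬ E k ω) (restI (fun k ω => ¬ E k ω) (rpo (X j)))
    have c2 := (hpr.const_sub 1).mul (ul_tendsto c1)
    rw [sub_self, zero_mul] at c2
    refine c2.congr fun k => ?_
    rw [mul_div_assoc]
  have hb := (LeN.of_nul hH).add ((s1 j).add (s4 i₀))
  have hc := (hb.add (LeN.of_nul (Nul.const T 2))).add (LeN.of_ev (f := fun k => -(l k).info) (a := -v) (by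
    filter_upwards [hv] with k hk
    linarith))
  have e : (0 + (a + a)) + 0 + -v = 2 * a - v := by ring
  rw [e] at hc
  refine hc.mono (Eventually.of_forall fun k => ?_)
  have c1 := (L1 k).rst_split (E k)
  have c2 : (1 - ((dp T κ h0).F k).pb (E k)) * ((L1 k).rst fun ω => ¬ E k ω).info ≤
      (1 - ((dp T κ h0).F k).pb (E k)) * H (((dp T κ h0).F k).rmap (fun ω => ¬ E k ω) (rp (X j) k)) +
        ((L1 k).leak (rp (X j) k) + 1) := by
    have d1 := FLab.info_le ((L1 k).rst fun ω => ¬ E k ω) (((dp T κ h0).F k).rmap (fun ω => ¬ E k ω) (rp (X j) k))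
    have d2 := (L1 k).rst_leak_le (fun ω => ¬ E k ω) (rp (X j) k)
    have d3 : ((dp T κ h0).F k).pb (fun ω => ¬ E k ω) = 1 - ((dp T κ h0).F k).pb (E k) := by
      have := ((dp T κ h0).F k).pb_add_compl (E k)
      linarith
    rw [d3] at d2
    have d4 : 0 ≤ 1 - ((dp T κ h0).F k).pb (E k) := sub_nonneg.mpr (((dp T κ h0).F k).pb_le_one _)
    have d5 := mul_le_mul_of_nonneg_left d1 d4
    rw [mul_add] at d5
    linarith
  have c3 : ((dp T κ h0).F k).pb (E k) * ((L1 k).rst (E k)).info ≤ ((L1 k).rst (E k)).info := by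
    have := mul_le_mul_of_nonneg_right (((dp T κ h0).F k).pb_le_one (E k)) ((L1 k).rst (E k)).info_nonneg
    rwa [one_mul] at this
  have c4 : (L2 k).info ≤ (L2.down p0 k).info + (L2 k).leak ((B i₀).pull p0 k) :=
    Pool.Agent.Helper40.EL.FLab.down_info (p0.fp k) (p0.hn k) (L2 k) (B i₀ k)
  have c5 : (L2 k).info = ((L1 k).rst (E k)).info := by rw [hL2]; rfl
  have c6 := i1 k
  have c7 : (1 - (dp T κ h0).pr E k) * H ((rp (X j)).rest (fun k ω => ¬ E k ω) k) =
      (1 - ((dp T κ h0).F k).pb (E k)) * H (((dp T κ h0).F k).rmap (fun ω => ¬ E k ω) (rp (X j) k)) := rfl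
  show -(L2.down p0 k).info ≤ (1 - (dp T κ h0).pr E k) * H ((rp (X j)).rest (fun k ω => ¬ E k ω) k) +
    ((L1 k).leak (rp (X j) k) + (L2 k).leak ((B i₀).pull p0 k)) + 2 + -(l k).info
  rw [c7]
  linarith

end

end

end Pool.Agent.Helper99.BLD
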